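import Pool.Agent.TH921.NT.NsA
import Pool.Agent.TH921.NT.NsB

set_option autoImplicit false

/-!
# Components (section C of helper69's project Ns; written by helper767)
-/

namespace Pool.Agent.TH921.Nt

namespace NsC

/-- a subgroup of a subnormal subgroup `L` inside its largest normal subgroup with `Sm c` is inside
that of the whole group -/
theorem climb {c : ℕ} {K : Type} [Group K] [Finite K] (T : Subgroup K) :
    ∀ L : Subgroup K, L.IsSubnormal → (∀ t ∈ T, InO c L t) → ∀ t ∈ T, InO c ⊤ t := by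
  intro L hL
  induction hL with
  | top => intro h; exact h
  | step L L' hle hS hn ih =>
    intro h
    apply ih
    intro t ht
    obtain ⟨N, hN1, hN2, hN3, hN4⟩ := InO.exists_max c L
    refine ⟨N, hN1.trans hle, ?_, hN3, (hN4 t).1 (h t ht)⟩
    intro y hy x hx
    -- the conjugate of `N` by `y` is again such a subgroup of `L`
    have hconj : ∀ z ∈ L', ∀ l ∈ L, z * l * z⁻¹ ∈ L := by
      intro z hz l hl
      have h4 := hn.conj_mem ⟨l, hle hl⟩ (Subgroup.mem_subgroupOf.2 hl) ⟨z, hz⟩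
      exact Subgroup.mem_subgroupOf.1 h4
    rw [← hN4]
    refine ⟨N.map (MulAut.conj y).toMonoidHom, ?_, ?_, ?_, ?_⟩
    · rintro _ ⟨z, hz, rfl⟩
      exact hconj y hy z (hN1 hz)
    · rintro l hl _ ⟨z, hz, rfl⟩
      refine ⟨(y⁻¹ * l * y) * z * (y⁻¹ * l * y)⁻¹, hN2 _ ?_ z hz, ?_⟩
      · have := hconj y⁻¹ (L'.inv_mem hy) l hl
        rwa [inv_inv] at this
      · show y * ((y⁻¹ * l * y) * z * (y⁻¹ * l * y)⁻¹) * y⁻¹ = l * (y * z * y⁻¹) * l⁻¹
        group
    · let e := N.equivMapOfInjective (MulAut.conj y).toMonoidHom (MulAut.conj y).injective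
      exact Sm.of_inj e.symm.toMonoidHom e.symm.injective hN3
    · exact ⟨x, hx, rfl⟩

end NsC

theorem exists_comp {c n : ℕ} {K : Type} [Group K] (hK : Hy c n K)
    (hO : ∀ e : K, InO c ⊤ e → e = 1) (M : Subgroup K) (hM : M.IsSubnormal) (hne : M ≠ ⊥) :
    ∃ T ≤ M, Cp c T := by
  have := hK.fin
  -- a minimal nontrivial subnormal subgroup
  obtain ⟨T, ⟨hTM, hTS, hT0⟩, hmin⟩ := (Set.toFinite {T : Subgroup K | T ≤ M ∧ T.IsSubnormal ∧
    T ≠ ⊥}).exists_minimal ⟨M, le_rfl, hM, hne⟩
  have hnt : Nontrivial T := (Subgroup.nontrivial_iff_ne_bot T).2 hT0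
  have hsimple : IsSimpleGroup T := by
    refine ⟨fun H hH => ?_⟩
    by_cases h : H = ⊥
    · exact Or.inl h
    · right
      have h1 : (H.map T.subtype).IsSubnormal := hH.isSubnormal.trans' hTS
      have h2 : H.map T.subtype ≤ T := Subgroup.map_subtype_le H
      have h3 : H.map T.subtype ≠ ⊥ := by
        intro h4
        exact h ((Subgroup.map_eq_bot_iff_of_injective H T.subtype_injective).1 h4)
      have h5 : T ≤ H.map T.subtype := hmin ⟨h2.trans hTM, h1, h3⟩ h2
      rw [eq_top_iff]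
      intro x _
      obtain ⟨z, hz, hzx⟩ := h5 x.2
      have : z = x := Subtype.ext hzx
      rwa [this] at hz
  have hnot : ¬ Sm c T := by
    intro hs
    have h1 : ∀ t ∈ T, InO c T t := fun t ht =>
      ⟨T, le_rfl, fun h hh x hx => T.mul_mem (T.mul_mem hh hx) (T.inv_mem hh), hs, ht⟩
    have h2 := NsC.climb T T hTS h1
    exact hT0 ((Subgroup.eq_bot_iff_forall T).2 fun t ht => hO t (h2 t ht))
  have hnab : ∃ a b : T, a * b ≠ b * a := by
    by_contra hcon
    push Not at hcon
    apply hnot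
    intro S _ _ hS X f hf
    exfalso
    obtain ⟨a, b, hab⟩ := hS
    obtain ⟨x, rfl⟩ := hf a
    obtain ⟨y, rfl⟩ := hf b
    apply hab
    rw [← map_mul, ← map_mul]
    congr 1
    exact Subtype.ext (hcon _ _)
  refine ⟨T, hTM, hTS, hsimple, hnab, ?_⟩
  have hlt : Nat.card T < c + 1 := by
    have h1 : Sm (c + 1) T := Sm.of_inj T.subtype T.subtype_injective hK.sm
    exact (h1 T hsimple hnab ⊤ (Subgroup.topEquiv (G := T)).toMonoidHom
      (Subgroup.topEquiv (G := T)).surjective).1
  have hge : ¬ Nat.card T < c := fun h => hnot (Sm.of_card h fun S _ hS hne X f hf =>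
    (Sm.of_inj T.subtype T.subtype_injective hK.sm S hS hne X f hf).2)
  omega

theorem cent_triv {c n : ℕ} {K : Type} [Group K] (hK : Hy c n K)
    (hO : ∀ e : K, InO c ⊤ e → e = 1) (e : K)
    (he : ∀ T : Subgroup K, Cp c T → ∀ t ∈ T, e * t = t * e) : e = 1 := by
  let C : Subgroup K :=
    { carrier := {x | ∀ T : Subgroup K, Cp c T → ∀ t ∈ T, x * t = t * x}
      mul_mem' := by
        intro a b ha hb T hT t ht
        rw [mul_assoc, hb T hT t ht, ← mul_assoc, ha T hT t ht, mul_assoc]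
      one_mem' := by
        intro T _ t _
        rw [one_mul, mul_one]
      inv_mem' := by
        intro a ha T hT t ht
        have := ha T hT t ht
        exact (Commute.inv_left (show Commute a t from this)) }
  have hCn : C.Normal := by
    refine ⟨fun x hx g => ?_⟩
    intro T hT t ht
    have h1 := hx _ (hT.conj g⁻¹) (g⁻¹ * t * g) ⟨t, ht, by simp⟩
    have h2 : g * x * g⁻¹ * t = g * (x * (g⁻¹ * t * g)) * g⁻¹ := by group
    rw [h2, h1]
    group
  by_contra hne
  have hC : C ≠ ⊥ := by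
    intro h
    have h1 : e ∈ C := he
    rw [h, Subgroup.mem_bot] at h1
    exact hne h1
  obtain ⟨T, hTC, hT⟩ := exists_comp hK hO C hCn.isSubnormal hC
  obtain ⟨a, b, hab⟩ := hT.2.2.1
  exact hab (Subtype.ext (hTC a.2 T hT b b.2))

end Pool.Agent.TH921.Nt
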