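import Mathlib
import Pool.Agent.H32BU.All
import Pool.Agent.TH921.NT.NsDefs

/-!
# Groups of exponent `n` with nonsoluble finite subgroups: automorphisms of two-generator groups
-/

set_option autoImplicit false

namespace Pool.Agent.TH921.Nt

theorem card_mulAut {c : ℕ} (hc : 0 < c) {T : Type} [Group T] (hT : Bg c T)
    (h : ∃ a b : T, Subgroup.closure {a, b} = ⊤) : Nat.card (MulAut T) < c * c := by
  obtain ⟨a, b, hab⟩ := h
  have hcard : Nat.card T = c := hT.2.2
  haveI : Finite T := Nat.finite_of_card_ne_zero (by omega)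
  have hsim := hT.1
  haveI : Nontrivial T := hsim.toNontrivial
  let F : MulAut T → T × T := fun φ => (φ a, φ b)
  have hinj : Function.Injective F := by
    intro φ ψ hφψ
    have h1 : φ a = ψ a := congrArg Prod.fst hφψ
    have h2 : φ b = ψ b := congrArg Prod.snd hφψ
    have h3 : φ.toMonoidHom = ψ.toMonoidHom := by
      apply MonoidHom.eq_of_eqOn_dense hab
      intro x hx
      rcases hx with rfl | hx
      · exact h1
      · rw [Set.mem_singleton_iff] at hx
        subst hx
        exact h2
    ext x
    exact DFunLike.congr_fun h3 x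
  have hns : ¬ Function.Surjective F := by
    intro hs
    obtain ⟨φ, hφ⟩ := hs (1, 1)
    have h1 : φ a = 1 := congrArg Prod.fst hφ
    have h2 : φ b = 1 := congrArg Prod.snd hφ
    have ha : a = 1 := by simpa using h1
    have hb : b = 1 := by simpa using h2
    rw [ha, hb] at hab
    have h3 : (⊥ : Subgroup T) = ⊤ := by
      rw [← hab]
      symm
      rw [Subgroup.closure_eq_bot_iff]
      simp
    exact bot_ne_top h3
  haveI : Finite (T × T) := inferInstance
  have hlt : Nat.card (MulAut T) < Nat.card (T × T) := by
    have hle : Nat.card (MulAut T) ≤ Nat.card (T × T) := Nat.card_le_card_of_injective F hinj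
    refine lt_of_le_of_ne hle fun heq => hns ?_
    haveI : Finite (MulAut T) := Finite.of_injective F hinj
    haveI := Fintype.ofFinite (MulAut T)
    haveI := Fintype.ofFinite (T × T)
    rw [Nat.card_eq_fintype_card, Nat.card_eq_fintype_card] at heq
    exact ((Fintype.bijective_iff_injective_and_card F).2 ⟨hinj, heq⟩).2
  rwa [Nat.card_prod, hcard] at hlt

/-- Burnside's theorem gives three prime divisors of `c` -/
theorem oneP_of {c n : ℕ} (hn : 1 ≤ n)
    (h2 : ∃ p q : ℕ, ∀ r : ℕ, r.Prime → r ^ 2 ∣ n → r = p ∨ r = q)
    {T : Type} [Group T] [Finite T] (hT : Bg c T) (hexp : ∀ x : T, x ^ n = 1) : OneP c n := by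
  obtain ⟨p, q, hpq⟩ := h2
  have hcard : Nat.card T = c := hT.2.2
  have hc0 : c ≠ 0 := by
    rw [← hcard]
    exact Nat.card_pos.ne'
  by_contra hno
  -- every prime divisor of `c` is `p` or `q`
  have key : ∀ r : ℕ, r.Prime → r ∣ c → r = p ∨ r = q := by
    intro r hr hrc
    haveI : Fact r.Prime := ⟨hr⟩
    have hrn : r ∣ n := by
      obtain ⟨x, hx⟩ := exists_prime_orderOf_dvd_card' r (by rw [hcard]; exact hrc : r ∣ Nat.card T)
      rw [← hx]
      exact orderOf_dvd_of_pow_eq_one (hexp x)
    by_cases h2 : r ^ 2 ∣ n
    · exact hpq r hr h2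
    · exfalso
      apply hno
      obtain ⟨m, hm⟩ := hrn
      refine ⟨r, m, hr, hrc, hm, ?_⟩
      rw [hr.coprime_iff_not_dvd]
      rintro ⟨k, hk⟩
      exact h2 ⟨k, by rw [hm, hk]; ring⟩
  -- so `c` is a product of powers of two primes
  have hsol : Group.IsSolvable T := by
    have hfac := Nat.factorization_prod_pow_eq_self hc0
    obtain ⟨p', q', hp', hq', hsub⟩ : ∃ p' q' : ℕ, p'.Prime ∧ q'.Prime ∧
        ∀ r ∈ c.primeFactors, r = p' ∨ r = q' := by
      refine ⟨if p.Prime then p else 2, if q.Prime then q else 2, ?_, ?_, ?_⟩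
      · split_ifs with h
        · exact h
        · exact Nat.prime_two
      · split_ifs with h
        · exact h
        · exact Nat.prime_two
      · intro r hr
        have hr1 := Nat.prime_of_mem_primeFactors hr
        rcases key r hr1 (Nat.dvd_of_mem_primeFactors hr) with rfl | rfl
        · left; rw [if_pos hr1]
        · right; rw [if_pos hr1]
    obtain ⟨i, j, hij⟩ : ∃ i j : ℕ, c = p' ^ i * q' ^ j := by
      by_cases hne : p' = q'
      · refine ⟨c.factorization p', 0, ?_⟩
        rw [pow_zero, mul_one]
        conv_lhs => rw [← hfac]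
        rw [Finsupp.prod_of_support_subset (s := {p'}) _ ?_ _ (by simp)]
        · simp
        · intro r hr
          rw [Nat.support_factorization] at hr
          rcases hsub r hr with h | h
          · simp [h]
          · simp [h, hne]
      · refine ⟨c.factorization p', c.factorization q', ?_⟩
        conv_lhs => rw [← hfac]
        rw [Finsupp.prod_of_support_subset (s := {p', q'}) _ ?_ _ (by simp)]
        · rw [Finset.prod_pair hne]
        · intro r hr
          rw [Nat.support_factorization] at hr
          rcases hsub r hr with h | h <;> simp [h]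
    exact H32BU.x_BUR T p' q' i j hp' hq' (hcard.trans hij)
  have hsim := hT.1
  obtain ⟨a, b, hab⟩ := hT.2.1
  haveI := hsim
  exact hab (IsSimpleGroup.comm_iff_isSolvable.2 hsol a b)

end Pool.Agent.TH921.Nt
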