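import Mathlib
import Pool.Agent.TH921.NT.NsDefs

set_option autoImplicit false

/-!
# Section F with the lemmas of sections B, C, D, E as hypotheses
-/

namespace Pool.Agent.TH921.Nt.NsFaux

theorem EE_normal_of (c : ℕ) (K : Type) [Group K]
    (hconj : ∀ T : Subgroup K, Cp c T → ∀ g : K, Cp c (T.map (MulAut.conj g).toMonoidHom)) :
    (EE c K).Normal := by
  constructor
  intro x hx g
  have h1 : EE c K ≤ (EE c K).comap (MulAut.conj g).toMonoidHom := by
    refine sSup_le fun T hT => ?_
    rw [← Subgroup.map_le_iff_le_comap]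
    exact le_sSup (hconj T hT g)
  exact h1 hx

/-- the elements normalising all components -/
def K1 (c : ℕ) (K : Type) [Group K] : Subgroup K where
  carrier := {g | ∀ T : Subgroup K, Cp c T → (∀ t ∈ T, g * t * g⁻¹ ∈ T) ∧ (∀ t ∈ T, g⁻¹ * t * g ∈ T)}
  one_mem' := by
    intro T _
    constructor <;> intro t ht <;> simpa using ht
  mul_mem' := by
    intro a b ha hb T hT
    constructor
    · intro t ht
      have := (ha T hT).1 _ ((hb T hT).1 t ht)
      have e : a * b * t * (a * b)⁻¹ = a * (b * t * b⁻¹) * a⁻¹ := by group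
      rw [e]; exact this
    · intro t ht
      have := (hb T hT).2 _ ((ha T hT).2 t ht)
      have e : (a * b)⁻¹ * t * (a * b) = b⁻¹ * (a⁻¹ * t * a) * b := by group
      rw [e]; exact this
  inv_mem' := by
    intro a ha T hT
    constructor
    · intro t ht
      have := (ha T hT).2 t ht
      simpa using this
    · intro t ht
      have := (ha T hT).1 t ht
      simpa using this

theorem K1_conj {c : ℕ} {K : Type} [Group K]
    (hconj : ∀ T : Subgroup K, Cp c T → ∀ g : K, Cp c (T.map (MulAut.conj g).toMonoidHom))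
    {x : K} (hx : x ∈ K1 c K) (g : K) : g * x * g⁻¹ ∈ K1 c K := by
  intro T hT
  have hT' := hconj T hT g⁻¹
  obtain ⟨h1, h2⟩ := hx _ hT'
  have hmem : ∀ t ∈ T, g⁻¹ * t * g ∈ T.map (MulAut.conj g⁻¹).toMonoidHom := by
    intro t ht
    refine ⟨t, ht, ?_⟩
    simp [MulAut.conj_apply]
  have hback : ∀ u ∈ T.map (MulAut.conj g⁻¹).toMonoidHom, g * u * g⁻¹ ∈ T := by
    rintro u ⟨t, ht, rfl⟩
    have : g * ((MulAut.conj g⁻¹).toMonoidHom t) * g⁻¹ = t := by
      simp [MulAut.conj_apply, mul_assoc]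
    rw [this]; exact ht
  constructor
  · intro t ht
    have := hback _ (h1 _ (hmem t ht))
    have e : g * x * g⁻¹ * t * (g * x * g⁻¹)⁻¹ = g * (x * (g⁻¹ * t * g) * x⁻¹) * g⁻¹ := by group
    rw [e]; exact this
  · intro t ht
    have := hback _ (h2 _ (hmem t ht))
    have e : (g * x * g⁻¹)⁻¹ * t * (g * x * g⁻¹) = g * (x⁻¹ * (g⁻¹ * t * g) * x) * g⁻¹ := by group
    rw [e]; exact this

/-- elements of `X` normalising all components and centralising the components in `F` -/
def AF (c : ℕ) {K : Type} [Group K] (X : Subgroup K) (F : Set (Subgroup K)) : Subgroup X where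
  carrier := {x | x.1 ∈ K1 c K ∧ ∀ T ∈ F, ∀ t ∈ T, x.1 * t = t * x.1}
  one_mem' := ⟨(K1 c K).one_mem, fun T _ t _ => by simp⟩
  mul_mem' := by
    rintro a b ⟨ha, ha'⟩ ⟨hb, hb'⟩
    refine ⟨(K1 c K).mul_mem ha hb, fun T hT t ht => ?_⟩
    have e1 := ha' T hT t ht
    have e2 := hb' T hT t ht
    change a.1 * b.1 * t = t * (a.1 * b.1)
    rw [mul_assoc, e2, ← mul_assoc, e1, mul_assoc]
  inv_mem' := by
    rintro a ⟨ha, ha'⟩
    refine ⟨(K1 c K).inv_mem ha, fun T hT t ht => ?_⟩
    have e1 := ha' T hT t ht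
    change a.1⁻¹ * t = t * a.1⁻¹
    rw [inv_mul_eq_iff_eq_mul, ← mul_assoc, e1, mul_assoc, mul_inv_cancel, mul_one]

theorem center_triv {T : Type} [Group T] (h1 : IsSimpleGroup T) (h2 : ∃ a b : T, a * b ≠ b * a)
    (z : T) (hz : ∀ t : T, z * t = t * z) : z = 1 := by
  rcases h1.eq_bot_or_eq_top_of_normal (Subgroup.center T) inferInstance with h | h
  · have : z ∈ Subgroup.center T := by
      rw [Subgroup.mem_center_iff]
      intro g
      exact (hz g).symm
    rw [h] at this
    exact Subgroup.mem_bot.1 this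
  · obtain ⟨a, b, hab⟩ := h2
    have : a ∈ Subgroup.center T := by rw [h]; trivial
    rw [Subgroup.mem_center_iff] at this
    exact absurd (this b).symm hab

theorem finite_mulAut (T : Type) [Group T] [Finite T] : Finite (MulAut T) :=
  Finite.of_injective (fun (g : MulAut T) => (g : T → T)) (fun a b h => MulEquiv.ext (congrFun h))

theorem not_kill_of {c n : ℕ} (hc : 0 < c) (hP : OneP c n) {K : Type} [Group K]
    (hK : Hy c n K)
    (heq : ∀ T S : Subgroup K, Cp c T → Cp c S → T = S ∨ Cm T S)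
    (hconj : ∀ T : Subgroup K, Cp c T → ∀ g : K, Cp c (T.map (MulAut.conj g).toMonoidHom))
    (hcent : ∀ e : K, (∀ T : Subgroup K, Cp c T → ∀ t ∈ T, e * t = t * e) → e = 1)
    (haut : ∀ T : Subgroup K, Cp c T → Nat.card (MulAut T) < c * c)
    (hnorm : ∀ p m : ℕ, p.Prime → p ∣ c → n = p * m → Nat.Coprime p m →
      ∀ T : Subgroup K, Cp c T → ∀ x : K, x ^ p = 1 → ∀ t ∈ T, x * t * x⁻¹ ∈ T)
    (X : Subgroup K) (hX : EE c K ≤ X)
    {S : Type} [Group S] (hS : Bg c S) (f : X →* S) (hf : Function.Surjective f) :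
    ∃ x : X, x.1 ∈ EE c K ∧ f x ≠ 1 := by
  by_contra hcon
  push Not at hcon
  haveI := hK.fin
  obtain ⟨hSs, hSn, hSc⟩ := hS
  haveI : Finite S := Nat.finite_of_card_ne_zero (by rw [hSc]; exact hc.ne')
  -- components lie in X and in the kernel
  have hTE : ∀ T : Subgroup K, Cp c T → T ≤ EE c K := fun T hT => le_sSup hT
  have hTX : ∀ T : Subgroup K, Cp c T → ∀ t ∈ T, t ∈ X := fun T hT t ht => hX (hTE T hT ht)
  have hTk : ∀ T : Subgroup K, Cp c T → ∀ (t : K) (ht : t ∈ T) (h : t ∈ X), f ⟨t, h⟩ = 1 :=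
    fun T hT t ht h => hcon ⟨t, h⟩ (hTE T hT ht)
  -- components normalise components
  have hTK1 : ∀ T : Subgroup K, Cp c T → ∀ t ∈ T, t ∈ K1 c K := by
    intro T hT t ht T' hT'
    rcases heq T T' hT hT' with h | h
    · subst h
      exact ⟨fun u hu => T.mul_mem (T.mul_mem ht hu) (T.inv_mem ht),
        fun u hu => T.mul_mem (T.mul_mem (T.inv_mem ht) hu) ht⟩
    · constructor
      · intro u hu
        rw [h t ht u hu, mul_assoc, mul_inv_cancel, mul_one]; exact hu
      · intro u hu
        rw [mul_assoc, ← h t ht u hu, ← mul_assoc, inv_mul_cancel, one_mul]; exact hu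
  -- base
  have base : (AF c X ∅).map f = ⊤ := by
    have hnorm' : ((AF c X ∅).map f).Normal := by
      constructor
      rintro _ ⟨x, hx, rfl⟩ s
      obtain ⟨g, rfl⟩ := hf s
      refine ⟨g * x * g⁻¹, ⟨K1_conj hconj hx.1 g.1, fun T hT => absurd hT (by simp)⟩, ?_⟩
      simp
    rcases hSs.eq_bot_or_eq_top_of_normal _ hnorm' with h | h
    · exfalso
      obtain ⟨p, m, hp, hpc, hn, hcop⟩ := hP
      haveI : Fact p.Prime := ⟨hp⟩
      obtain ⟨s, hs⟩ := exists_prime_orderOf_dvd_card' (G := S) p (by rw [hSc]; exact hpc)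
      obtain ⟨x, hx⟩ := hf s
      have hy : (x.1 ^ m) ^ p = 1 := by
        rw [← pow_mul, mul_comm m p, ← hn]; exact hK.exp x.1
      have hy' : ((x.1 ^ m)⁻¹) ^ p = 1 := by rw [inv_pow, hy, inv_one]
      have hmem : x ^ m ∈ AF c X ∅ := by
        refine ⟨fun T hT => ⟨hnorm p m hp hpc hn hcop T hT _ hy, fun t ht => ?_⟩,
          fun T hT => absurd hT (by simp)⟩
        have := hnorm p m hp hpc hn hcop T hT _ hy' t ht
        rw [inv_inv] at this
        exact this
      have h3 : f (x ^ m) ∈ (AF c X ∅).map f := ⟨_, hmem, rfl⟩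
      rw [h, Subgroup.mem_bot, map_pow, hx] at h3
      have h4 : p ∣ m := by rw [← hs]; exact orderOf_dvd_of_pow_eq_one h3
      have h5 : p = 1 := Nat.eq_one_of_dvd_coprimes hcop dvd_rfl h4
      exact hp.one_lt.ne' h5
    · exact h
  -- step
  have step : ∀ (F : Set (Subgroup K)) (T : Subgroup K), (∀ T' ∈ F, Cp c T') → Cp c T → T ∉ F →
      (AF c X F).map f = ⊤ → (AF c X (insert T F)).map f = ⊤ := by
    intro F T hF hT hTF ih
    have hnorm' : ((AF c X (insert T F)).map f).Normal := by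
      constructor
      rintro _ ⟨b, hb, rfl⟩ s
      have hs : s ∈ (AF c X F).map f := by rw [ih]; trivial
      obtain ⟨a, ha, rfl⟩ := hs
      refine ⟨a * b * a⁻¹, ⟨K1_conj hconj hb.1 a.1, fun T' hT' t ht => ?_⟩, by simp⟩
      have hTT : Cp c T' := by
        rcases hT' with h | h
        · rw [h]; exact hT
        · exact hF _ h
      -- a normalises T'
      have ha1 : a.1⁻¹ * t * a.1 ∈ T' := (ha.1 T' hTT).2 t ht
      have e1 := hb.2 T' hT' _ ha1
      change a.1 * b.1 * a.1⁻¹ * t = t * (a.1 * b.1 * a.1⁻¹)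
      calc a.1 * b.1 * a.1⁻¹ * t = a.1 * (b.1 * (a.1⁻¹ * t * a.1)) * a.1⁻¹ := by group
        _ = a.1 * ((a.1⁻¹ * t * a.1) * b.1) * a.1⁻¹ := by rw [e1]
        _ = t * (a.1 * b.1 * a.1⁻¹) := by group
    rcases hSs.eq_bot_or_eq_top_of_normal _ hnorm' with h | h
    · exfalso
      -- every element of `AF (insert T F)` is killed
      have hkill : ∀ b ∈ AF c X (insert T F), f b = 1 := by
        intro b hb
        have : f b ∈ (AF c X (insert T F)).map f := ⟨b, hb, rfl⟩
        rw [h] at this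
        exact Subgroup.mem_bot.1 this
      -- lifts
      have hlift : ∀ s : S, ∃ a ∈ AF c X F, f a = s := by
        intro s
        have hs : s ∈ (AF c X F).map f := by rw [ih]; trivial
        obtain ⟨a, ha, rfl⟩ := hs
        exact ⟨a, ha, rfl⟩
      choose l hl1 hl2 using hlift
      -- conjugation automorphism of T
      have hmk : ∀ g : K, g ∈ K1 c K → ∃ φ : MulAut T, ∀ t : T, ((φ t : T) : K) = g * t.1 * g⁻¹ := by
        intro g hg
        obtain ⟨h1, h2⟩ := hg T hT
        refine ⟨⟨⟨fun t => ⟨g * t.1 * g⁻¹, h1 t.1 t.2⟩, fun t => ⟨g⁻¹ * t.1 * g, h2 t.1 t.2⟩,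
          fun t => ?_, fun t => ?_⟩, fun t u => ?_⟩, fun t => rfl⟩
        · apply Subtype.ext
          change g⁻¹ * (g * t.1 * g⁻¹) * g = t.1
          group
        · apply Subtype.ext
          change g * (g⁻¹ * t.1 * g) * g⁻¹ = t.1
          group
        · apply Subtype.ext
          change g * (t.1 * u.1) * g⁻¹ = (g * t.1 * g⁻¹) * (g * u.1 * g⁻¹)
          group
      have hkt : ∀ (s : S) (t : T), (l s).1 * t.1 ∈ K1 c K := fun s t =>
        (K1 c K).mul_mem (hl1 s).1 (hTK1 T hT t.1 t.2)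
      choose φ hφ using fun q : S × T => hmk ((l q.1).1 * q.2.1) (hkt q.1 q.2)
      have hinj : Function.Injective φ := by
        rintro ⟨s, t⟩ ⟨s', t'⟩ hst
        -- the element b = (l s t)⁻¹ (l s' t') centralises T
        have hc1 : ∀ u ∈ T, ((l s).1 * t.1)⁻¹ * ((l s').1 * t'.1) * u
            = u * (((l s).1 * t.1)⁻¹ * ((l s').1 * t'.1)) := by
          intro u hu
          have e1 := hφ (s, t) ⟨u, hu⟩
          have e2 := hφ (s', t') ⟨u, hu⟩
          rw [hst] at e1
          have e3 : (l s).1 * t.1 * u * ((l s).1 * t.1)⁻¹ = (l s').1 * t'.1 * u * ((l s').1 * t'.1)⁻¹ := by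
            rw [← e1, ← e2]
          set A := (l s).1 * t.1
          set B := (l s').1 * t'.1
          have e4 : A * u * A⁻¹ * B = B * u := by rw [e3]; group
          calc A⁻¹ * B * u = A⁻¹ * (B * u) := by group
            _ = A⁻¹ * (A * u * A⁻¹ * B) := by rw [e4]
            _ = u * (A⁻¹ * B) := by group
        have htX : t.1 ∈ X := hTX T hT t.1 t.2
        have htX' : t'.1 ∈ X := hTX T hT t'.1 t'.2
        have hTAF : ∀ (u : K) (hu : u ∈ T) (hx : u ∈ X), (⟨u, hx⟩ : X) ∈ AF c X F := by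
          intro u hu hx
          refine ⟨hTK1 T hT u hu, fun T' hT' v hv => ?_⟩
          rcases heq T T' hT (hF T' hT') with h | h
          · exact absurd (h ▸ hT') hTF
          · exact h u hu v hv
        have hb : (l s * ⟨t.1, htX⟩)⁻¹ * (l s' * ⟨t'.1, htX'⟩) ∈ AF c X (insert T F) := by
          have hin : (l s * ⟨t.1, htX⟩)⁻¹ * (l s' * ⟨t'.1, htX'⟩) ∈ AF c X F :=
            (AF c X F).mul_mem ((AF c X F).inv_mem ((AF c X F).mul_mem (hl1 s) (hTAF t.1 t.2 htX)))
              ((AF c X F).mul_mem (hl1 s') (hTAF t'.1 t'.2 htX'))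
          refine ⟨hin.1, ?_⟩
          intro T' hT' u hu
          rcases hT' with h | h
          · subst h
            exact hc1 u hu
          · exact hin.2 T' h u hu
        have hk := hkill _ hb
        rw [map_mul, map_inv, map_mul, map_mul, hl2, hl2, hTk T hT t.1 t.2 htX,
          hTk T hT t'.1 t'.2 htX', mul_one, mul_one] at hk
        have hss : s' = s := (inv_mul_eq_one.1 hk).symm
        subst hss
        -- now t⁻¹ t' is central in T
        have hz : t⁻¹ * t' = 1 := by
          refine center_triv hT.2.1 hT.2.2.1 _ fun u => ?_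
          apply Subtype.ext
          have := hc1 u.1 u.2
          have e : ((l s').1 * t.1)⁻¹ * ((l s').1 * t'.1) = t.1⁻¹ * t'.1 := by group
          rw [e] at this
          exact this
        have htt : t' = t := (inv_mul_eq_one.1 hz).symm
        rw [htt]
      haveI : Finite T := inferInstance
      haveI := finite_mulAut T
      have hle := Nat.card_le_card_of_injective φ hinj
      rw [Nat.card_prod, hSc, hT.2.2.2] at hle
      exact absurd (haut T hT) (not_lt.2 hle)
    · exact h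
  -- all components
  have hall : ∀ F : Set (Subgroup K), F.Finite → (∀ T ∈ F, Cp c T) → (AF c X F).map f = ⊤ := by
    intro F hFin
    refine Set.Finite.induction_on_subset (motive := fun G _ => (∀ T ∈ G, Cp c T) →
      (AF c X G).map f = ⊤) F hFin (fun _ => base) ?_
    intro T G hTF hGF hTG ih hG
    exact step G T (fun T' h => hG T' (Set.mem_insert_of_mem _ h)) (hG T (Set.mem_insert _ _)) hTG
      (ih (fun T' h => hG T' (Set.mem_insert_of_mem _ h)))
  have hfin := hall {T | Cp c T} (Set.toFinite _) (fun T hT => hT)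
  obtain ⟨a, b, hab⟩ := hSn
  have h1 : ∀ s : S, s = 1 := by
    intro s
    have hs : s ∈ (AF c X {T | Cp c T}).map f := by rw [hfin]; trivial
    obtain ⟨x, hx, rfl⟩ := hs
    have : x.1 = 1 := hcent x.1 (fun T hT t ht => hx.2 T hT t ht)
    have hx1 : x = 1 := Subtype.ext this
    rw [hx1, map_one]
  exact hab (by rw [h1 a, h1 b])

end Pool.Agent.TH921.Nt.NsFaux
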