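import Mathlib
import Pool.Agent.TH921.NT.NsC
import Pool.Agent.TH921.NT.NsH0

set_option autoImplicit false

/-!
# Groups of exponent `n` with nonsoluble finite subgroups, section H: the criterion
-/

namespace Pool.Agent.TH921.Nt

theorem crit {c n : ℕ} (h2 : TwoGen n) {K : Type} [Group K] (hK : Hy c n K) (e : K)
    (h : ∀ y z : K, InO c (Subgroup.closure {e, y, z}) e) : InO c ⊤ e :=
  crit_of (fun hK => exists_quot c n hK) (fun T S h1 h2 h3 h4 => le_or_cm T S h1 h2 h3 h4)
    (fun hK hO e he => cent_triv hK hO e he) h2 hK e h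

end Pool.Agent.TH921.Nt
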