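import Mathlib
import Pool.Agent.TH921.NT.NsDefs2

set_option autoImplicit false

/-!
# Products of elements of components (helper475)
-/

namespace Pool.Agent.TH921.Nt

theorem NsM.exists_approx {c : ℕ} {Q : Type} [Group Q] (g : Q)
    (h : ∀ T : Subgroup Q, Cp c T → ActsInn T g) (F : Finset (Subgroup Q)) :
    (∀ T ∈ F, Cp c T) → ∃ e ∈ EE c Q, ∀ T ∈ F, ∀ s ∈ T, e * s * e⁻¹ = g * s * g⁻¹ := by
  classical
  induction F using Finset.induction_on with
  | empty =>
    intro _
    exact ⟨1, one_mem _, fun T hT => absurd hT (Finset.notMem_empty T)⟩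
  | insert T F hTF ih =>
    intro hF
    obtain ⟨e, he, h1⟩ := ih fun S hS => hF S (Finset.mem_insert_of_mem hS)
    have hT : Cp c T := hF T (Finset.mem_insert_self T F)
    obtain ⟨u, hu, hu2⟩ := EE_inner hT he
    obtain ⟨t, ht, ht2⟩ := h T hT
    have hle : T ≤ EE c Q := le_sSup hT
    have htu : t * u⁻¹ ∈ T := mul_mem ht (inv_mem hu)
    refine ⟨t * u⁻¹ * e, mul_mem (hle htu) he, fun S hS s hs => ?_⟩
    have e1 : t * u⁻¹ * e * s * (t * u⁻¹ * e)⁻¹ = t * u⁻¹ * (e * s * e⁻¹) * (t * u⁻¹)⁻¹ := by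
      group
    rw [e1]
    by_cases hST : S = T
    · subst hST
      rw [hu2 s hs, ht2 s hs]
      group
    · have hSF : S ∈ F := by
        rcases Finset.mem_insert.1 hS with h2 | h2
        · exact absurd h2 hST
        · exact h2
      have hSc : Cp c S := hF S hS
      have hcm : Cm T S := by
        rcases hT.eq_or_cm hSc with h2 | h2
        · exact absurd h2.symm hST
        · exact h2
      have h3 := hcm (t * u⁻¹) htu (e * s * e⁻¹) (EE_norm hSc he s hs)
      rw [h3, mul_assoc, mul_inv_cancel, mul_one]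
      exact h1 S hSF s hs

theorem mem_EE_iff {c n : ℕ} {Q : Type} [Group Q] (hQ : Hy c n Q)
    (hO : ∀ e : Q, InO c ⊤ e → e = 1) (g : Q) :
    g ∈ EE c Q ↔ ∀ T : Subgroup Q, Cp c T → ActsInn T g := by
  constructor
  · intro hg T hT
    exact EE_inner hT hg
  · intro h
    have := hQ.fin
    have hfin : {T : Subgroup Q | Cp c T}.Finite := Set.toFinite _
    obtain ⟨e, he, h1⟩ := NsM.exists_approx g h hfin.toFinset
      (fun T hT => by
        have h0 : T ∈ {T : Subgroup Q | Cp c T} := hfin.mem_toFinset.1 hT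
        exact h0)
    have h2 : e⁻¹ * g = 1 := by
      refine cent_triv hQ hO _ fun T hT t ht => ?_
      have h3 := h1 T (hfin.mem_toFinset.2 hT) t ht
      have h4 : e⁻¹ * (g * t * g⁻¹) * g = e⁻¹ * (e * t * e⁻¹) * g := by rw [h3]
      have h5 : e⁻¹ * (g * t * g⁻¹) * g = e⁻¹ * g * t := by group
      have h6 : e⁻¹ * (e * t * e⁻¹) * g = t * (e⁻¹ * g) := by group
      rw [← h5, h4, h6]
    have h3 : g = e := (inv_mul_eq_one.1 h2).symm
    rw [h3]
    exact he

end Pool.Agent.TH921.Nt
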