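import Mathlib
import Pool.Agent.TH921.NT.NsDefs2

set_option autoImplicit false

/-!
# Groups of exponent `n` with nonsoluble finite subgroups, section P: the first layer
(written by helper359)
-/

namespace Pool.Agent.TH921.Nt

namespace NsP

/-- a map which is injective on a component maps it to a component -/
theorem Cp_map {c : ℕ} {A B : Type} [Group A] [Group B] (f : A →* B)
    (hf : Function.Surjective f) {T : Subgroup A} (hT : Cp c T)
    (hinj : ∀ x ∈ T, f x = 1 → x = 1) : Cp c (T.map f) := by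
  refine ⟨Subgroup.IsSubnormal.map hf hT.1, ?_⟩
  let φ : T →* T.map f := f.subgroupMap T
  have h1 : Function.Injective φ := by
    rw [injective_iff_map_eq_one]
    intro x hx
    exact Subtype.ext (hinj x.1 x.2 (congrArg Subtype.val hx))
  let e : T ≃* T.map f := MulEquiv.ofBijective φ ⟨h1, f.subgroupMap_surjective T⟩
  obtain ⟨h2, h3⟩ := NsB.transport e hT.2.1 hT.2.2.1
  refine ⟨h2, h3, ?_⟩
  rw [← hT.2.2.2]
  exact (Nat.card_congr e.toEquiv).symm

/-- a homomorphism is trivial or injective on a component -/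
theorem Cp_kill {c : ℕ} {A B : Type} [Group A] [Group B] (f : A →* B) {T : Subgroup A}
    (hT : Cp c T) : (∀ x ∈ T, f x = 1) ∨ (∀ x ∈ T, f x = 1 → x = 1) := by
  have h1 := hT.2.1
  rcases h1.eq_bot_or_eq_top_of_normal (f.ker.subgroupOf T) inferInstance with h | h
  · right
    intro x hx hfx
    have h2 : (⟨x, hx⟩ : T) ∈ f.ker.subgroupOf T := hfx
    rw [h, Subgroup.mem_bot] at h2
    exact congrArg Subtype.val h2
  · left
    intro x hx
    have h2 : (⟨x, hx⟩ : T) ∈ f.ker.subgroupOf T := h ▸ Subgroup.mem_top _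
    exact h2

/-- surjective homomorphisms map the product of the components to the product of the components -/
theorem EE_map {c : ℕ} {A B : Type} [Group A] [Group B] (h : A →* B)
    (hs : Function.Surjective h) {e : A} (he : e ∈ EE c A) : h e ∈ EE c B := by
  have h1 : EE c A ≤ (EE c B).comap h := by
    refine sSup_le fun T hT x hx => ?_
    have hT' : Cp c T := hT
    rw [Subgroup.mem_comap]
    rcases Cp_kill h hT' with h2 | h2
    · rw [h2 x hx]
      exact one_mem _
    · have h3 : T.map h ≤ EE c B := le_sSup (Cp_map h hs hT' h2)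
      exact h3 (Subgroup.mem_map_of_mem h hx)
  exact h1 he

/-- factorisation of homomorphisms -/
theorem exists_fac {A B C : Type} [Group A] [Group B] [Group C] (f : A →* B)
    (hf : Function.Surjective f) (g : A →* C) (h : ∀ x, f x = 1 → g x = 1) :
    ∃ k : B →* C, ∀ x, k (f x) = g x := by
  have hle : f.ker ≤ g.ker := fun x hx => h x hx
  exact ⟨f.liftOfRightInverse (Function.surjInv hf) (Function.rightInverse_surjInv hf) ⟨g, hle⟩,
    fun x => f.liftOfRightInverse_comp_apply _ _ ⟨g, hle⟩ x⟩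

theorem InO_map {c : ℕ} {A B : Type} [Group A] [Group B] (g : A →* B)
    (hg : Function.Surjective g) {x : A} (h : InO c ⊤ x) : InO c ⊤ (g x) := by
  have h1 := InO.map g h
  rwa [Subgroup.map_top_of_surjective g hg] at h1

theorem fac_surj {A B C : Type} [Group A] [Group B] [Group C] {f : A →* B} {g : A →* C}
    {k : B →* C} (hk : ∀ x, k (f x) = g x) (hg : Function.Surjective g) :
    Function.Surjective k := by
  intro y
  obtain ⟨x, rfl⟩ := hg y
  exact ⟨f x, hk x⟩

end NsP

open NsP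

theorem exists_Cq {c n : ℕ} {K : Type} [Group K] (hK : Hy c n K) :
    ∃ (Q : Type) (_ : Group Q) (f : K →* Q), Hy c n Q ∧ Cq c f := by
  obtain ⟨Q, iQ, f, h1, h2, h3, h4⟩ := exists_quot c n hK
  exact ⟨Q, iQ, f, h2, ⟨h1, h4, h3⟩⟩

theorem InF.iff {c n : ℕ} {K Q : Type} [Group K] [Group Q] (hK : Hy c n K) {f : K →* Q}
    (hf : Cq c f) (e : K) : InF c e ↔ f e ∈ EE c Q := by
  constructor
  · rintro ⟨Q', iQ', f', hf', he⟩
    obtain ⟨k, hk⟩ := exists_fac f' hf'.surj f fun x hx => (hf.ker x).1 ((hf'.ker x).2 hx)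
    rw [← hk e]
    exact EE_map k (fac_surj hk hf.surj) he
  · intro h
    exact ⟨Q, inferInstance, f, hf, h⟩

theorem InF.map {c n : ℕ} {K P : Type} [Group K] [Group P] (hK : Hy c n K) (g : K →* P)
    (hg : Function.Surjective g) {e : K} (he : InF c e) : InF c (g e) := by
  obtain ⟨Q, iQ, f, hf, he⟩ := he
  obtain ⟨Q', iQ', f', -, hf'⟩ := exists_Cq (hK.of_surj g hg)
  obtain ⟨k, hk⟩ := exists_fac f hf.surj (f'.comp g) fun x hx =>
    (hf'.ker (g x)).1 (InO_map g hg ((hf.ker x).2 hx))
  refine ⟨Q', iQ', f', hf', ?_⟩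
  have h1 : f' (g e) = k (f e) := (hk e).symm
  rw [h1]
  exact EE_map k (fac_surj hk (hf'.surj.comp hg)) he

/-- elements of the first layer act on components as inner automorphisms -/
theorem InF.acts' {c n : ℕ} {P : Type} [Group P] (hP : Hy c n P) {e : P} (he : InF c e)
    {T : Subgroup P} (hT : Cp c T) : ActsInn T e := by
  have := hP.fin
  obtain ⟨Q, iQ, f, hf, he⟩ := he
  have hinj : ∀ x ∈ T, f x = 1 → x = 1 := by
    rcases Cp_kill f hT with h | h
    · exfalso
      obtain ⟨N, -, -, h3, h4⟩ := InO.exists_max c (⊤ : Subgroup P)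
      have h5 : T ≤ N := fun x hx => (h4 x).1 ((hf.ker x).2 (h x hx))
      exact Sm.not_Bg hT.2 (h3.of_inj (Subgroup.inclusion h5) (Subgroup.inclusion_injective _))
    · exact h
  have hinj2 : ∀ x ∈ T, ∀ y ∈ T, f x = f y → x = y := by
    intro x hx y hy hxy
    have h1 := hinj (x * y⁻¹) (mul_mem hx (inv_mem hy)) (by rw [map_mul, map_inv, hxy,
      mul_inv_cancel])
    exact mul_inv_eq_one.1 h1
  obtain ⟨t', ht', hact⟩ := EE_inner (Cp_map f hf.surj hT hinj) he
  obtain ⟨t, ht, rfl⟩ := ht'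
  have hact' : ∀ s ∈ T, f (e * s * e⁻¹) = f (t * s * t⁻¹) := by
    intro s hs
    rw [map_mul, map_mul, map_inv, map_mul, map_mul, map_inv]
    exact hact _ (Subgroup.mem_map_of_mem f hs)
  have hconj : ∀ s ∈ T, e * s * e⁻¹ ∈ T.map (MulAut.conj e).toMonoidHom := fun s hs =>
    ⟨s, hs, rfl⟩
  rcases (hT.conj e).eq_or_cm hT with h | h
  · refine ⟨t, ht, fun s hs => ?_⟩
    have h1 := hconj s hs
    rw [h] at h1
    exact hinj2 _ h1 _ (mul_mem (mul_mem ht hs) (inv_mem ht)) (hact' s hs)
  · exfalso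
    obtain ⟨a, b, hab⟩ := hT.2.2.1
    apply hab
    apply Subtype.ext
    refine hinj2 _ (mul_mem a.2 b.2) _ (mul_mem b.2 a.2) ?_
    have h1 : t⁻¹ * a.1 * t ∈ T := mul_mem (mul_mem (inv_mem ht) a.2) ht
    have h2 := hact' _ h1
    have h3 : t * (t⁻¹ * a.1 * t) * t⁻¹ = a.1 := by group
    rw [h3] at h2
    have h4 := h _ (hconj _ h1) b.1 b.2
    have h5 : f a.1 * f b.1 = f b.1 * f a.1 := by
      rw [← h2, ← map_mul, ← map_mul, h4]
    show f (a.1 * b.1) = f (b.1 * a.1)
    rw [map_mul, map_mul]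
    exact h5

theorem InF.acts {c n : ℕ} {K P : Type} [Group K] [Group P] (hK : Hy c n K) (g : K →* P)
    (hg : Function.Surjective g) {e : K} (he : InF c e) {T : Subgroup P} (hT : Cp c T) :
    ActsInn T (g e) :=
  InF.acts' (hK.of_surj g hg) (InF.map hK g hg he) hT

theorem InF.one {c n : ℕ} {K : Type} [Group K] (hK : Hy c n K) : InF c (1 : K) := by
  obtain ⟨Q, iQ, f, -, hf⟩ := exists_Cq hK
  refine ⟨Q, iQ, f, hf, ?_⟩
  rw [map_one]
  exact one_mem _

theorem InF.mul {c n : ℕ} {K : Type} [Group K] (hK : Hy c n K) {e f : K} (he : InF c e)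
    (hf : InF c f) : InF c (e * f) := by
  obtain ⟨Q, iQ, φ, -, hφ⟩ := exists_Cq hK
  rw [InF.iff hK hφ] at he hf ⊢
  rw [map_mul]
  exact mul_mem he hf

theorem InF.inv {c n : ℕ} {K : Type} [Group K] (hK : Hy c n K) {e : K} (he : InF c e) :
    InF c e⁻¹ := by
  obtain ⟨Q, iQ, φ, -, hφ⟩ := exists_Cq hK
  rw [InF.iff hK hφ] at he ⊢
  rw [map_inv]
  exact inv_mem he

/-- `K` modulo a normal subgroup with `Sm c` -/
theorem InF.of_small {c n : ℕ} {K P : Type} [Group K] [Group P] (hK : Hy c n K) (g : K →* P)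
    (hg : Function.Surjective g) (hs : Sm c g.ker) {e : K} (he : InF c (g e)) : InF c e := by
  obtain ⟨Q, iQ, f, hf, he⟩ := he
  refine ⟨Q, iQ, f.comp g, ⟨hf.surj.comp hg, fun x => ⟨fun hx => ?_, fun hx => ?_⟩, hf.triv⟩, he⟩
  · exact (hf.ker (g x)).1 (InO_map g hg hx)
  · obtain ⟨M, -, h5, h6, h7⟩ := (hf.ker (g x)).2 hx
    refine ⟨M.comap g, le_top, ?_, ?_, h7⟩
    · intro h _ y hy
      rw [Subgroup.mem_comap, map_mul, map_mul, map_inv]
      exact h5 _ (Subgroup.mem_top _) _ hy
    · let R := M.comap g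
      have hNR : g.ker ≤ R := by
        intro y hy
        have h8 : g y = 1 := hy
        change g y ∈ M
        rw [h8]
        exact one_mem _
      have h9 : (g.ker.subgroupOf R).Normal := inferInstance
      refine Sm.ext (g.ker.subgroupOf R) ?_ ?_
      · refine hs.of_inj (Subgroup.subgroupOfEquivOfLe hNR).toMonoidHom ?_
        exact (Subgroup.subgroupOfEquivOfLe hNR).injective
      · let φ : R →* M := g.subgroupComap M
        have hφ : g.ker.subgroupOf R ≤ φ.ker := by
          intro y hy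
          exact Subtype.ext hy
        refine h6.of_inj (QuotientGroup.lift (g.ker.subgroupOf R) φ hφ) ?_
        rw [injective_iff_map_eq_one]
        intro y hy
        obtain ⟨y, rfl⟩ := QuotientGroup.mk_surjective y
        rw [QuotientGroup.eq_one_iff]
        have h10 : g y.1 = 1 := congrArg Subtype.val hy
        exact h10

end Pool.Agent.TH921.Nt
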