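import Mathlib
import Pool.Agent.TH921.NT.NsM
import Pool.Agent.TH921.NT.NsP

set_option autoImplicit false

/-!
# Groups of exponent `n` with nonsoluble finite subgroups, section S: the criterion for the first
layer
-/

namespace Pool.Agent.TH921.Nt

theorem crit1 {c n : ℕ} (h2 : TwoGen n) {K : Type} [Group K] (hK : Hy c n K) (e : K)
    (h : ∀ (y z : K) (he : e ∈ Subgroup.closure {e, y, z}),
      InF c (⟨e, he⟩ : Subgroup.closure {e, y, z})) : InF c e := by
  obtain ⟨Q, _, f, hQ, hf⟩ := exists_Cq hK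
  rw [InF.iff hK hf, mem_EE_iff hQ hf.triv]
  intro T hT
  have := hQ.fin
  obtain ⟨a, b, hab⟩ := hQ.sm.tg hT.2.1 hT.2.2.1
  obtain ⟨y, hy⟩ := hf.surj a
  obtain ⟨z, hz⟩ := hf.surj b
  have he : e ∈ Subgroup.closure {e, y, z} := Subgroup.subset_closure (by simp)
  have hs := h y z he
  generalize hH : Subgroup.closure {e, y, z} = H at he hs
  have hT' : T = Subgroup.closure {(a : Q), (b : Q)} := by
    have h3 := congrArg (Subgroup.map T.subtype) hab
    rw [MonoidHom.map_closure, ← MonoidHom.range_eq_map, Subgroup.range_subtype] at h3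
    rw [Set.image_pair] at h3
    exact h3.symm
  have hTP : T ≤ H.map f := by
    rw [hT', Subgroup.closure_le]
    rintro x hx
    rcases hx with hx | hx
    · rw [hx, ← hy]
      refine Subgroup.mem_map_of_mem f ?_
      rw [← hH]
      exact Subgroup.subset_closure (by simp)
    · rw [Set.mem_singleton_iff.1 hx, ← hz]
      refine Subgroup.mem_map_of_mem f ?_
      rw [← hH]
      exact Subgroup.subset_closure (by simp)
  have hTc : Cp c (T.subgroupOf (H.map f)) := by
    obtain ⟨h3, h4⟩ := NsB.transport (Subgroup.subgroupOfEquivOfLe hTP).symm hT.2.1 hT.2.2.1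
    refine ⟨hT.1.subgroupOf, h3, h4, ?_⟩
    rw [← hT.2.2.2]
    exact Nat.card_congr (Subgroup.subgroupOfEquivOfLe hTP).toEquiv
  obtain ⟨t, ht, hts⟩ := InF.acts (hK.of_inj H.subtype H.subtype_injective) (f.subgroupMap H)
    (f.subgroupMap_surjective H) hs hTc
  refine ⟨t.1, ht, fun s hs => ?_⟩
  exact congrArg Subtype.val (hts ⟨s, hTP hs⟩ hs)

end Pool.Agent.TH921.Nt
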