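import Pool.Agent.TH921.NT.NsE

set_option autoImplicit false

/-!
# Elements of order a power of `p` and the components
-/

namespace Pool.Agent.TH921.Nt

namespace NsU

open NsE

theorem norm_of_pow_aux {c n p a m : ℕ} (hp : p.Prime) (hpc : p ∣ c) (hn : n = p ^ (a + 1) * m)
    (hcop : Nat.Coprime p m) {K : Type} [Group K] [Finite K] (hexp : ∀ x : K, x ^ n = 1)
    {T : Subgroup K} (hT : Cp c T)
    (hTS : ∀ g : K, T = T.map (MulAut.conj g).toMonoidHom ∨ Cm T (T.map (MulAut.conj g).toMonoidHom))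
    {x : K} (hx : x ^ p ^ (a + 1) = 1) : ∀ t ∈ T, x ^ p ^ a * t * (x ^ p ^ a)⁻¹ ∈ T := by
  by_contra hcon
  have hxn : x ^ p ^ a ∉ Subgroup.normalizer (T : Set K) := by
    intro h
    apply hcon
    intro t ht
    exact (Subgroup.mem_normalizer_iff.1 h t).1 ht
  have hcm : ∀ i, 0 < i → i < p ^ (a + 1) → ∀ u ∈ T, ∀ b ∈ T,
      u * (x ^ i * b * (x ^ i)⁻¹) = (x ^ i * b * (x ^ i)⁻¹) * u := by
    intro i hi0 hip
    rcases hTS (x ^ i) with h | h
    · exfalso
      apply hxn
      have h1 : x ^ i ∈ Subgroup.normalizer (T : Set K) := by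
        rw [Subgroup.mem_normalizer_iff]
        intro g
        constructor
        · intro hg
          rw [h]
          exact ⟨g, hg, rfl⟩
        · intro hg
          rw [h] at hg
          obtain ⟨g', hg', h2⟩ := hg
          have h3 : x ^ i * g' * (x ^ i)⁻¹ = x ^ i * g * (x ^ i)⁻¹ := h2
          have h4 : g' = g := by simpa using h3
          rw [← h4]
          exact hg'
      -- the greatest common divisor of `i` and `p ^ (a + 1)` divides `p ^ a`
      obtain ⟨b, hb, hb'⟩ := (Nat.dvd_prime_pow hp).1 (Nat.gcd_dvd_right i (p ^ (a + 1)))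
      have hba : b ≤ a := by
        by_contra hlt
        have : b = a + 1 := by omega
        rw [this] at hb'
        have h5 : p ^ (a + 1) ∣ i := hb' ▸ Nat.gcd_dvd_left i (p ^ (a + 1))
        exact absurd (Nat.le_of_dvd hi0 h5) (by omega)
      have h6 : x ^ (Nat.gcd i (p ^ (a + 1))) ∈ Subgroup.normalizer (T : Set K) := by
        have h7 : x ^ (Nat.gcd i (p ^ (a + 1))) = (x ^ i) ^ (Nat.gcdA i (p ^ (a + 1))) := by
          have h8 := Nat.gcd_eq_gcd_ab i (p ^ (a + 1))
          rw [← zpow_natCast x (Nat.gcd i (p ^ (a + 1))), h8, zpow_add, zpow_mul, zpow_mul,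
            zpow_natCast, zpow_natCast, hx, one_zpow, mul_one]
        rw [h7]
        exact Subgroup.zpow_mem _ h1 _
      rw [hb'] at h6
      have h9 : x ^ p ^ a = (x ^ p ^ b) ^ (p ^ (a - b)) := by
        rw [← pow_mul, ← pow_add]
        congr 2
        omega
      rw [h9]
      exact Subgroup.pow_mem _ h6 _
    · intro u hu b hb
      exact h u hu _ ⟨b, hb, rfl⟩
  -- an element of order `p`
  have : Fact p.Prime := ⟨hp⟩
  obtain ⟨hT1, hT2, hT3⟩ := hT.2
  obtain ⟨t, ht⟩ := exists_prime_orderOf_dvd_card' (G := T) p (by rw [hT3]; exact hpc)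
  have hq0 : 0 < p ^ (a + 1) := pow_pos hp.pos _
  have hp1 : p ^ (a + 1) = (p ^ (a + 1) - 1) + 1 := by omega
  have hw : (x * (t : K)) ^ p ^ (a + 1) = w x t (p ^ (a + 1) - 1) * t := by
    rw [w_pow, hx, mul_one]
    conv_lhs => rw [hp1]
    rw [w, ← hp1, hx]
    simp
  have hwc : ∀ u ∈ T, u * w x t (p ^ (a + 1) - 1) = w x t (p ^ (a + 1) - 1) * u := by
    intro u hu
    exact w_comm x t u (p ^ (a + 1)) (fun i hi0 hip => hcm i hi0 hip u hu t t.2)
      (p ^ (a + 1) - 1) (by omega)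
  have h1 : (w x t (p ^ (a + 1) - 1)) ^ m * (t : K) ^ m = 1 := by
    have h2 : Commute (w x t (p ^ (a + 1) - 1)) (t : K) := (hwc t t.2).symm
    rw [← h2.mul_pow, ← hw, ← pow_mul, ← hn]
    exact hexp _
  have h3 : t ^ m = 1 := by
    apply centre_triv hT1 hT2
    intro s
    apply Subtype.ext
    show ((t : K)) ^ m * (s : K) = (s : K) * (t : K) ^ m
    have h4 : (t : K) ^ m = ((w x t (p ^ (a + 1) - 1)) ^ m)⁻¹ := by
      rw [eq_inv_iff_mul_eq_one, ← h1]
      have h2 : Commute (w x t (p ^ (a + 1) - 1)) (t : K) := (hwc t t.2).symm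
      exact (h2.pow_pow m m).symm
    rw [h4]
    have h5 : Commute (s : K) (w x t (p ^ (a + 1) - 1)) := hwc s s.2
    exact ((h5.pow_right m).inv_right).symm
  have h6 : p ∣ m := by
    rw [← ht]
    exact orderOf_dvd_of_pow_eq_one h3
  exact (Nat.Prime.coprime_iff_not_dvd hp).1 hcop h6

end NsU

theorem norm_of_pow' {c n p a m : ℕ} (hp : p.Prime) (hpc : p ∣ c) (hn : n = p ^ (a + 1) * m)
    (hcop : Nat.Coprime p m) {K : Type} [Group K] [Finite K] (hexp : ∀ x : K, x ^ n = 1)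
    {T : Subgroup K} (hT : Cp c T) {x : K} (hx : x ^ p ^ (a + 1) = 1) :
    ∀ t ∈ T, x ^ p ^ a * t * (x ^ p ^ a)⁻¹ ∈ T :=
  NsU.norm_of_pow_aux hp hpc hn hcop hexp hT (fun g => NsE.eq_or_cm hT (NsE.conj hT g)) hx

end Pool.Agent.TH921.Nt
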