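import Mathlib
import Pool.Agent.TH921.NT.NsDefs2
import Pool.Agent.TH921.NT.NsI

set_option autoImplicit false

/-!
# Groups of exponent `n` with nonsoluble finite subgroups, section X: infinite groups
-/

namespace Pool.Agent.TH921.Nt.X

open Pool.Agent.TH921.Nt

/-- homomorphisms of perfect groups to the canonical quotient have images in the first layer -/
def L1 (c : ℕ) (K : Type) [Group K] : Prop :=
  ∀ (Q : Type) [Group Q] (f : K →* Q), Cq c f → ∀ (A : Type) [Group A], Pf c A →
    ∀ (g : A →* Q) (a : A), g a ∈ EE c Q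

/-- the standing assumptions on an infinite group -/
structure HK (c n N k : ℕ) (G : Type) [Group G] : Prop where
  exp : ∀ x : G, x ^ n = 1
  gen : ∀ s : Finset G, s.card ≤ k → Finite (Subgroup.closure (s : Set G)) ∧
    Nat.card (Subgroup.closure (s : Set G)) ≤ N ∧ Sm c (Subgroup.closure (s : Set G))

variable {c n N k : ℕ} {G : Type} [Group G]

theorem HK.hy (h : HK (c + 1) n N k G) (s : Finset G) (hs : s.card ≤ k) :
    Hy c n (Subgroup.closure (s : Set G)) :=
  ⟨(h.gen s hs).1, fun x => Subtype.ext (h.exp x.1), (h.gen s hs).2.2⟩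

theorem HK.quot (h : HK c n N k G) (M : Subgroup G) [M.Normal] : HK c n N k (G ⧸ M) := by
  classical
  refine ⟨fun x => ?_, fun s hs => ?_⟩
  · obtain ⟨x, rfl⟩ := QuotientGroup.mk_surjective x
    rw [← QuotientGroup.mk_pow, h.exp]
    rfl
  · obtain ⟨t, ht⟩ : ∃ t : Finset G, t = s.image (fun q : G ⧸ M => (Quotient.out q : G)) :=
      ⟨_, rfl⟩
    have hcard : t.card ≤ k := by
      rw [ht]
      exact Finset.card_image_le.trans hs
    have e : (Subgroup.closure (t : Set G)).map (QuotientGroup.mk' M) =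
        Subgroup.closure (s : Set (G ⧸ M)) := by
      rw [MonoidHom.map_closure]
      congr 1
      ext q
      rw [ht]
      simp only [Finset.coe_image, Set.mem_image, Finset.mem_coe]
      constructor
      · rintro ⟨_, ⟨q', hq', rfl⟩, rfl⟩
        have h3 : (QuotientGroup.mk' M) (Quotient.out q') = q' := QuotientGroup.out_eq' q'
        rwa [h3]
      · intro hq
        exact ⟨_, ⟨q, hq, rfl⟩, QuotientGroup.out_eq' q⟩
    obtain ⟨h1, h2, h3⟩ := h.gen t hcard
    rw [← e]
    have hs := (QuotientGroup.mk' M).subgroupMap_surjective (Subgroup.closure (t : Set G))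
    exact ⟨Finite.of_surjective _ hs, (Nat.card_le_card_of_surjective _ hs).trans h2,
      h3.of_surj _ hs⟩

/-- elements which lie in the radicals of the three-generator subgroups containing them -/
def RR (c : ℕ) (G : Type) [Group G] : Set G :=
  {e | ∀ y z : G, InO c (Subgroup.closure {e, y, z}) e}

theorem inO_top {K : Subgroup G} {e : G} (he : e ∈ K)
    (h : InO c (⊤ : Subgroup K) ⟨e, he⟩) : InO c K e := by
  have h1 := h.map K.subtype
  rw [← MonoidHom.range_eq_map, Subgroup.range_subtype] at h1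
  exact h1

theorem inO_to_top {K : Subgroup G} {e : G} (he : e ∈ K) (h : InO c K e) :
    InO c (⊤ : Subgroup K) ⟨e, he⟩ := by
  refine InO.of_map K.subtype K.subtype_injective ?_
  rw [← MonoidHom.range_eq_map, Subgroup.range_subtype]
  exact h

theorem closure_triple {A B : Type} [Group A] [Group B] (f : A →* B) (x y z : A) :
    (Subgroup.closure {x, y, z}).map f = Subgroup.closure {f x, f y, f z} := by
  rw [MonoidHom.map_closure]
  congr 1
  simp [Set.image_insert_eq]

theorem RR.inO (h2 : TwoGen n) {K : Subgroup G} (hK : Hy c n K) {e : G} (he : e ∈ K)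
    (h : e ∈ RR c G) : InO c K e := by
  refine inO_top he (crit h2 hK ⟨e, he⟩ fun y z => ?_)
  refine InO.of_map K.subtype K.subtype_injective ?_
  rw [closure_triple]
  exact h y.1 z.1

theorem HK.hy' (h : HK (c + 1) n N k G) (s : Set G) (t : Finset G) (hst : (t : Set G) = s)
    (ht : t.card ≤ k) : Hy c n (Subgroup.closure s) := by
  subst hst
  exact h.hy t ht

theorem HK.hy4 (hk : 6 ≤ k) (h : HK (c + 1) n N k G) (w x y z : G) :
    Hy c n (Subgroup.closure {w, x, y, z}) := by
  classical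
  exact h.hy' _ {w, x, y, z} (by simp) (Finset.card_le_four.trans (by omega))

theorem HK.hy6 (hk : 6 ≤ k) (h : HK (c + 1) n N k G) (u v w x y z : G) :
    Hy c n (Subgroup.closure {u, v, w, x, y, z}) := by
  classical
  exact h.hy' _ {u, v, w, x, y, z} (by simp) (Finset.card_le_six.trans hk)

theorem mem_four (w x y z : G) {e : G} (he : e = w ∨ e = x ∨ e = y ∨ e = z) :
    e ∈ Subgroup.closure {w, x, y, z} := by
  apply Subgroup.subset_closure
  simpa using he

theorem mem_six (u v w x y z : G) {e : G}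
    (he : e = u ∨ e = v ∨ e = w ∨ e = x ∨ e = y ∨ e = z) :
    e ∈ Subgroup.closure {u, v, w, x, y, z} := by
  apply Subgroup.subset_closure
  simpa using he

theorem closure_three_le {K : Subgroup G} {e y z : G} (he : e ∈ K) (hy : y ∈ K) (hz : z ∈ K) :
    Subgroup.closure {e, y, z} ≤ K := by
  rw [Subgroup.closure_le]
  rintro w (rfl | rfl | rfl)
  · exact he
  · exact hy
  · exact hz

theorem mem_three (e y z : G) : e ∈ Subgroup.closure {e, y, z} :=
  Subgroup.subset_closure (by simp)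

/-- the normal subgroup `RR` -/
def RSub (hk : 6 ≤ k) (h : HK (c + 1) n N k G) (h2 : TwoGen n) : Subgroup G where
  carrier := RR c G
  one_mem' := by
    intro y z
    have h3 := (h.hy4 hk 1 1 y z).fin
    obtain ⟨M, h4, h5, h6, h7⟩ := InO.exists_max c (Subgroup.closure {1, 1, y, z})
    refine InO.mono (closure_three_le (one_mem _) ?_ ?_) (one_mem _) ((h7 1).2 (one_mem _))
    · exact mem_four _ _ _ _ (by simp)
    · exact mem_four _ _ _ _ (by simp)
  mul_mem' := by
    intro e f he hf y z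
    have hK := h.hy4 hk e f y z
    have h3 := hK.fin
    obtain ⟨M, h4, h5, h6, h7⟩ := InO.exists_max c (Subgroup.closure {e, f, y, z})
    have h8 := RR.inO h2 hK (mem_four _ _ _ _ (by simp)) he
    have h9 := RR.inO h2 hK (mem_four _ _ _ _ (by simp)) hf
    have h10 := (h7 (e * f)).2 (mul_mem ((h7 e).1 h8) ((h7 f).1 h9))
    refine InO.mono (closure_three_le (mul_mem ?_ ?_) ?_ ?_) (mem_three _ _ _) h10
    all_goals exact mem_four _ _ _ _ (by simp)
  inv_mem' := by
    intro e he y z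
    obtain ⟨M, h4, h5, h6, h7⟩ := he y z
    have h8 : InO c (Subgroup.closure {e, y, z}) e⁻¹ := ⟨M, h4, h5, h6, inv_mem h7⟩
    refine InO.mono (closure_three_le (inv_mem (mem_three _ _ _)) ?_ ?_) (mem_three _ _ _) h8
    · exact Subgroup.subset_closure (by simp)
    · exact Subgroup.subset_closure (by simp)

theorem mem_RSub (hk : 6 ≤ k) (h : HK (c + 1) n N k G) (h2 : TwoGen n) {e : G} :
    e ∈ RSub hk h h2 ↔ e ∈ RR c G := Iff.rfl

theorem RSub_normal (hk : 6 ≤ k) (h : HK (c + 1) n N k G) (h2 : TwoGen n) : (RSub hk h h2).Normal := by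
  refine ⟨fun e he g y z => ?_⟩
  have h3 := (he (g⁻¹ * y * g) (g⁻¹ * z * g)).map (MulAut.conj g).toMonoidHom
  rw [closure_triple] at h3
  have e1 : (MulAut.conj g).toMonoidHom (g⁻¹ * y * g) = y := by
    change g * (g⁻¹ * y * g) * g⁻¹ = y
    group
  have e2 : (MulAut.conj g).toMonoidHom (g⁻¹ * z * g) = z := by
    change g * (g⁻¹ * z * g) * g⁻¹ = z
    group
  rw [e1, e2] at h3
  exact h3

/-- the finite subgroups of `RSub` -/
theorem HK.sub (hk : 6 ≤ k) (h : HK (c + 1) n N k G) (h2 : TwoGen n) : HK c n N k (RSub hk h h2) := by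
  classical
  refine ⟨fun x => Subtype.ext (h.exp x.1), fun s hs => ?_⟩
  obtain ⟨t, ht⟩ : ∃ t : Finset G, t = s.image (fun x : RSub hk h h2 => (x : G)) := ⟨_, rfl⟩
  have hcard : t.card ≤ k := by
    rw [ht]
    exact Finset.card_image_le.trans hs
  have e : (Subgroup.closure (s : Set (RSub hk h h2))).map (RSub hk h h2).subtype =
      Subgroup.closure (t : Set G) := by
    rw [MonoidHom.map_closure, ht, Finset.coe_image]
    rfl
  obtain ⟨h3, h4, -⟩ := h.gen t hcard
  have hK := h.hy t hcard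
  rw [← e] at h3 h4 hK
  let iso := (Subgroup.closure (s : Set (RSub hk h h2))).equivMapOfInjective (RSub hk h h2).subtype
    (RSub hk h h2).subtype_injective
  refine ⟨Finite.of_equiv _ iso.symm.toEquiv, ?_, ?_⟩
  · rw [Nat.card_congr iso.toEquiv]
    exact h4
  · obtain ⟨M, h5, h6, h7, h8⟩ := InO.exists_max c
      ((Subgroup.closure (s : Set (RSub hk h h2))).map (RSub hk h h2).subtype)
    have h9 : (Subgroup.closure (s : Set (RSub hk h h2))).map (RSub hk h h2).subtype ≤ M := by
      intro x hx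
      rw [← h8]
      refine RR.inO h2 hK hx ?_
      obtain ⟨y, -, rfl⟩ := hx
      exact y.2
    have h10 := h7.of_inj (Subgroup.inclusion h9) (Subgroup.inclusion_injective h9)
    exact h10.of_inj iso.toMonoidHom iso.injective

theorem Bg.of_equiv {A B : Type} [Group A] [Group B] (e : A ≃* B) (h : Bg c A) : Bg c B := by
  obtain ⟨h1, ⟨a, b, hab⟩, h3⟩ := h
  refine ⟨?_, ⟨e a, e b, ?_⟩, ?_⟩
  · have : Nontrivial B := by
      have := h1.toNontrivial
      exact e.symm.toEquiv.nontrivial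
    exact IsSimpleGroup.isSimpleGroup_of_surjective e.toMonoidHom e.surjective
  · intro h4
    rw [← map_mul, ← map_mul] at h4
    exact hab (e.injective h4)
  · rw [← h3]
    exact (Nat.card_congr e.toEquiv).symm

theorem TG.of_equiv {A B : Type} [Group A] [Group B] (e : A ≃* B) (h : TG A) : TG B := by
  obtain ⟨a, b, hab⟩ := h
  refine ⟨e a, e b, ?_⟩
  have h3 := congrArg (fun H : Subgroup A => H.map e.toMonoidHom) hab
  simp only [MonoidHom.map_closure, Set.image_pair] at h3
  rw [← MonoidHom.range_eq_map, MonoidHom.range_eq_top.2 e.surjective] at h3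
  exact h3

/-- the two-generated simple subgroups of order `c` -/
def VV (c : ℕ) (G : Type) [Group G] : Set (Subgroup G) := {T | Bg c T ∧ TG T}

theorem two_gen (hc : 0 < c) (h : HK (c + 1) n N k G) (h2 : TwoGen n) {A : Subgroup G}
    (hA : A ∈ VV c G) : ∃ a b : G, Subgroup.closure {a, b} = A := by
  obtain ⟨a, b, hab⟩ := hA.2
  refine ⟨a, b, ?_⟩
  have h3 := congrArg (fun H : Subgroup A => H.map A.subtype) hab
  simp only [MonoidHom.map_closure, Set.image_pair, ← MonoidHom.range_eq_map,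
    Subgroup.range_subtype] at h3
  exact h3

theorem pf_sup {A B : Subgroup G} (hA : Pf c A) (hB : Pf c B) : Pf c (A ⊔ B : Subgroup G) := by
  intro Q _ hQ hs g a
  have h1 : A ⊔ B ≤ g.ker.map (A ⊔ B).subtype := by
    refine sup_le ?_ ?_
    · intro x hx
      exact ⟨⟨x, (le_sup_left : A ≤ A ⊔ B) hx⟩,
        hA Q hQ hs (g.comp (Subgroup.inclusion le_sup_left)) ⟨x, hx⟩, rfl⟩
    · intro x hx
      exact ⟨⟨x, (le_sup_right : B ≤ A ⊔ B) hx⟩,
        hB Q hQ hs (g.comp (Subgroup.inclusion le_sup_right)) ⟨x, hx⟩, rfl⟩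
  obtain ⟨y, hy, hya⟩ := h1 a.2
  have : y = a := Subtype.ext hya
  rw [← this]
  exact hy

theorem sup_eq_four {A C : Subgroup G} {a b x y : G} (hA : Subgroup.closure {a, b} = A)
    (hC : Subgroup.closure {x, y} = C) : A ⊔ C = Subgroup.closure {a, b, x, y} := by
  rw [← hA, ← hC, ← Subgroup.closure_union]
  congr 1
  ext z
  simp only [Set.mem_union, Set.mem_insert_iff, Set.mem_singleton_iff]
  tauto

theorem sup_eq_six {A B C : Subgroup G} {a b u v x y : G} (hA : Subgroup.closure {a, b} = A)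
    (hB : Subgroup.closure {u, v} = B) (hC : Subgroup.closure {x, y} = C) :
    A ⊔ B ⊔ C = Subgroup.closure {a, b, u, v, x, y} := by
  rw [← hA, ← hB, ← hC, ← Subgroup.closure_union, ← Subgroup.closure_union]
  congr 1
  ext z
  simp only [Set.mem_union, Set.mem_insert_iff, Set.mem_singleton_iff]
  tauto

theorem l1_set {s : Set G} (hL : ∀ s : Finset G, s.card ≤ k → L1 c (Subgroup.closure (s : Set G)))
    (t : Finset G) (hst : (t : Set G) = s) (ht : t.card ≤ k) : L1 c (Subgroup.closure s) := by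
  subst hst
  exact hL t ht

theorem l1_four (hk : 6 ≤ k)
    (hL : ∀ s : Finset G, s.card ≤ k → L1 c (Subgroup.closure (s : Set G))) (w x y z : G) :
    L1 c (Subgroup.closure {w, x, y, z}) := by
  classical
  exact l1_set hL {w, x, y, z} (by simp) (Finset.card_le_four.trans (by omega))

theorem l1_six (hk : 6 ≤ k)
    (hL : ∀ s : Finset G, s.card ≤ k → L1 c (Subgroup.closure (s : Set G))) (u v w x y z : G) :
    L1 c (Subgroup.closure {u, v, w, x, y, z}) := by
  classical
  exact l1_set hL {u, v, w, x, y, z} (by simp) (Finset.card_le_six.trans hk)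

theorem exists_Cq' {K : Type} [Group K] (hK : Hy c n K) :
    ∃ (Q : Type) (_ : Group Q) (f : K →* Q), Hy c n Q ∧ Cq c f := by
  obtain ⟨Q, i, f, h1, h2, h3, h4⟩ := exists_quot c n hK
  exact ⟨Q, i, f, h2, h1, h4, h3⟩

theorem pf_inO' (hc : 0 < c) {A K : Subgroup G} (hAK : A ≤ K) (hK : Hy c n K) (hL : L1 c K)
    (hA : Pf c A) {e : G} (he : InO c A e) : InO c K e := by
  obtain ⟨N, hN1, hN2, hN3, hN4⟩ := he
  obtain ⟨Q, _, f, hQ, hf⟩ := exists_Cq' hK
  have heA : e ∈ A := hN1 hN4
  let j : A →* K := Subgroup.inclusion hAK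
  have h1 : f ⟨e, hAK heA⟩ = 1 := by
    refine cent_triv hQ hf.triv _ fun T hT t ht => ?_
    obtain ⟨κ, hκ⟩ := exists_proj hT (f.comp j) (hL Q f hf A hA _)
    have hN5 : (N.subgroupOf A).Normal := ⟨fun x hx g => hN2 g.1 g.2 _ hx⟩
    have hN6 : Sm c (N.subgroupOf A) := by
      refine hN3.of_inj (Subgroup.subgroupOfEquivOfLe hN1).toMonoidHom ?_
      exact (Subgroup.subgroupOfEquivOfLe hN1).injective
    have h3 := pf_kill hc hA hT.2 (hQ.sm.of_inj T.subtype T.subtype_injective) κ
      (N.subgroupOf A) hN6 (x := ⟨e, heA⟩) hN4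
    have h4 := hκ ⟨e, heA⟩ t ht
    rw [h3] at h4
    have h5 : f ⟨e, hAK heA⟩ * t * (f ⟨e, hAK heA⟩)⁻¹ = t := by
      have h6 : (f.comp j) ⟨e, heA⟩ = f ⟨e, hAK heA⟩ := rfl
      rw [h6] at h4
      rw [h4]
      simp
    exact mul_inv_eq_iff_eq_mul.1 h5
  exact inO_top (hAK heA) ((hf.ker _).2 h1)

theorem pf_struct' {K : Type} [Group K] (hK : Hy c n K) (hL : L1 c K)
    (hO : ∀ e : K, InO c ⊤ e → e = 1) (hA : Pf c K) : EE c K = ⊤ := by
  have hfin := hK.fin
  obtain ⟨M, h4, h5, h6, h7⟩ := InO.exists_max c (⊤ : Subgroup K)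
  have hf : Cq c (MonoidHom.id K) := by
    refine ⟨Function.surjective_id, fun e => ⟨hO e, fun he => ?_⟩, hO⟩
    have : e = 1 := he
    rw [this, h7]
    exact one_mem _
  rw [eq_top_iff]
  intro x _
  exact hL K (MonoidHom.id K) hf K hA (MonoidHom.id K) x

/-- perfect four-generator subgroups have trivial radical -/
theorem four_triv (hc : 0 < c) (hk : 6 ≤ k) (h : HK (c + 1) n N k G)
    (hL : ∀ s : Finset G, s.card ≤ k → L1 c (Subgroup.closure (s : Set G)))
    (hR : ∀ e ∈ RR c G, e = 1) {a b x y : G} (hA : Pf c (Subgroup.closure {a, b, x, y})) {e : G}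
    (he : InO c (Subgroup.closure {a, b, x, y}) e) : e = 1 := by
  apply hR
  intro u v
  have hK := h.hy6 hk a b x y u v
  have hle : Subgroup.closure {a, b, x, y} ≤ Subgroup.closure {a, b, x, y, u, v} := by
    apply Subgroup.closure_mono
    intro z hz
    simp only [Set.mem_insert_iff, Set.mem_singleton_iff] at hz ⊢
    tauto
  have h3 := pf_inO' hc hle hK (l1_six hk hL a b x y u v) hA he
  obtain ⟨M, h4, -, -, h5⟩ := he
  refine InO.mono (closure_three_le (hle (h4 h5)) ?_ ?_) (mem_three _ _ _) h3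
  all_goals exact mem_six _ _ _ _ _ _ (by simp)

/-- two simple subgroups of order `c` generate a direct product of such groups -/
theorem two_comp (hc : 0 < c) (hk : 6 ≤ k) (h2 : TwoGen n) (h : HK (c + 1) n N k G)
    (hL : ∀ s : Finset G, s.card ≤ k → L1 c (Subgroup.closure (s : Set G)))
    (hR : ∀ e ∈ RR c G, e = 1) : ∀ A ∈ VV c G, ∀ C ∈ VV c G, ∃ D : Set (Subgroup G), D.Finite ∧
      D ⊆ VV c G ∧ sSup D = A ⊔ C ∧ ∀ E ∈ D, ∀ g ∈ A ⊔ C, ∀ x ∈ E, g * x * g⁻¹ ∈ E := by
  intro A hA C hC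
  obtain ⟨a, b, hab⟩ := two_gen hc h h2 hA
  obtain ⟨x, y, hxy⟩ := two_gen hc h h2 hC
  have e4 := sup_eq_four hab hxy
  have hpf : Pf c (A ⊔ C : Subgroup G) := pf_sup (Bg.pf hA.1) (Bg.pf hC.1)
  obtain ⟨H, hH⟩ : ∃ H : Subgroup G, H = A ⊔ C := ⟨_, rfl⟩
  rw [← hH] at hpf e4 ⊢
  have hK : Hy c n H := by
    rw [e4]
    exact h.hy4 hk a b x y
  have hO' : ∀ e : G, InO c H e → e = 1 := by
    rw [e4] at hpf ⊢
    exact fun e he => four_triv hc hk h hL hR hpf he
  have hO : ∀ e : H, InO c ⊤ e → e = 1 := fun e he => Subtype.ext (hO' e.1 (inO_top e.2 he))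
  have hLH : L1 c H := by
    rw [e4]
    exact l1_four hk hL a b x y
  have hE := pf_struct' hK hLH hO hpf
  have hfin := hK.fin
  refine ⟨(fun T : Subgroup H => T.map H.subtype) '' {T | Cp c T}, (Set.toFinite _).image _,
    ?_, ?_, ?_⟩
  · rintro _ ⟨T, hT, rfl⟩
    exact ⟨Bg.of_equiv (T.equivMapOfInjective H.subtype H.subtype_injective) hT.2,
      TG.of_equiv (T.equivMapOfInjective H.subtype H.subtype_injective)
        (hK.sm.tg hT.2.1 hT.2.2.1)⟩
  · apply le_antisymm
    · refine sSup_le ?_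
      rintro _ ⟨T, hT, rfl⟩
      exact Subgroup.map_subtype_le T
    · have h3 : EE c H ≤ (sSup ((fun T : Subgroup H => T.map H.subtype) '' {T | Cp c T})).comap
          H.subtype := by
        refine sSup_le fun T hT => ?_
        rw [← Subgroup.map_le_iff_le_comap]
        exact le_sSup ⟨T, hT, rfl⟩
      intro z hz
      exact h3 (show (⟨z, hz⟩ : H) ∈ EE c H by rw [hE]; exact Subgroup.mem_top _)
  · rintro _ ⟨T, hT, rfl⟩ g hg _ ⟨z, hz, rfl⟩
    have h3 := EE_norm hT (g := ⟨g, hg⟩) (by rw [hE]; exact Subgroup.mem_top _) z hz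
    exact ⟨_, h3, rfl⟩

end Pool.Agent.TH921.Nt.X
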