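import Mathlib
import Pool.Agent.TH921.NT.NsY
import Pool.Agent.TH921.NT.NsS
import Pool.Agent.TH921.NT.NsT
import Pool.Agent.TH921.NT.NsV
import Pool.Agent.TH921.NT.NsW

set_option autoImplicit false

/-!
# Groups of exponent `n` with nonsoluble finite subgroups, section Z: groups with several layers
-/

namespace Pool.Agent.TH921.Nt.X

open Pool.Agent.H32BU Pool.Agent.TH69.Mtn Pool.Agent.TH921.Nt

variable {c n N k : ℕ} {G : Type} [Group G]

/-- elements which lie in the first layer of the three-generator subgroups containing them -/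
def R1 (c : ℕ) (G : Type) [Group G] : Set G :=
  {e | ∀ (y z : G) (he : e ∈ Subgroup.closure {e, y, z}),
    InF c (⟨e, he⟩ : Subgroup.closure {e, y, z})}

/-- restriction to smaller subgroups -/
theorem inF_mono {H K : Subgroup G} (hK : Hy c n K) (hHK : H ≤ K) {e : G} (he : e ∈ H)
    (h : InF c (⟨e, hHK he⟩ : K)) : InF c (⟨e, he⟩ : H) :=
  InF.of_inj hK (Subgroup.inclusion hHK) (Subgroup.inclusion_injective hHK) h

theorem R1.inF (h2 : TwoGen n) {K : Subgroup G} (hK : Hy c n K) {e : G} (he : e ∈ K)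
    (h : e ∈ R1 c G) : InF c (⟨e, he⟩ : K) := by
  refine crit1 h2 hK ⟨e, he⟩ fun y z hez => ?_
  have h3 := h y.1 z.1 (mem_three _ _ _)
  have e1 := closure_triple K.subtype ⟨e, he⟩ y z
  have hle : ∀ x ∈ Subgroup.closure {(⟨e, he⟩ : K), y, z},
      (x : G) ∈ Subgroup.closure {e, y.1, z.1} := by
    intro x hx
    have h4 : K.subtype x ∈ (Subgroup.closure {(⟨e, he⟩ : K), y, z}).map K.subtype := ⟨x, hx, rfl⟩
    rw [e1] at h4
    exact h4
  let φ : Subgroup.closure {(⟨e, he⟩ : K), y, z} →* Subgroup.closure {e, y.1, z.1} :=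
    (K.subtype.comp (Subgroup.subtype _)).codRestrict _ fun x => hle x.1 x.2
  have hφ : Function.Injective φ := by
    intro a b hab
    have h4 := congrArg (fun w : Subgroup.closure {e, y.1, z.1} => (w : G)) hab
    exact Subtype.ext (Subtype.ext h4)
  have hKc : Hy c n (Subgroup.closure {e, y.1, z.1}) := by
    have h5 : Subgroup.closure {e, y.1, z.1} ≤ K := closure_three_le he y.2 z.2
    exact hK.of_inj (Subgroup.inclusion h5) (Subgroup.inclusion_injective h5)
  exact InF.of_inj hKc φ hφ h3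

theorem HK.hy3 (hk : 6 ≤ k) (h : HK (c + 1) n N k G) (x y z : G) :
    Hy c n (Subgroup.closure {x, y, z}) := by
  classical
  exact h.hy' _ {x, y, z} (by simp) (Finset.card_le_three.trans (by omega))

/-- the normal subgroup `R1` -/
def R1Sub (hk : 6 ≤ k) (h : HK (c + 1) n N k G) (h2 : TwoGen n) : Subgroup G where
  carrier := R1 c G
  one_mem' := by
    intro y z he
    exact InF.one (h.hy3 hk 1 y z)
  mul_mem' := by
    intro e f he hf y z hez
    have hK := h.hy4 hk e f y z
    have h8 := R1.inF h2 hK (mem_four _ _ _ _ (by simp)) he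
    have h9 := R1.inF h2 hK (mem_four _ _ _ _ (by simp)) hf
    have h10 := InF.mul hK h8 h9
    have hle : Subgroup.closure {e * f, y, z} ≤ Subgroup.closure {e, f, y, z} := by
      refine closure_three_le (mul_mem ?_ ?_) ?_ ?_
      all_goals exact mem_four _ _ _ _ (by simp)
    exact inF_mono hK hle hez h10
  inv_mem' := by
    intro e he y z hez
    have hK := h.hy3 hk e y z
    have h8 := InF.inv hK (he y z (mem_three _ _ _))
    have hle : Subgroup.closure {e⁻¹, y, z} ≤ Subgroup.closure {e, y, z} := by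
      refine closure_three_le (inv_mem (mem_three _ _ _)) ?_ ?_
      all_goals exact Subgroup.subset_closure (by simp)
    exact inF_mono hK hle hez h8

theorem R1Sub_normal (hk : 6 ≤ k) (h : HK (c + 1) n N k G) (h2 : TwoGen n) :
    (R1Sub hk h h2).Normal := by
  refine ⟨fun e he g y z hez => ?_⟩
  have h3 := he (g⁻¹ * y * g) (g⁻¹ * z * g) (mem_three _ _ _)
  have hK := h.hy3 hk e (g⁻¹ * y * g) (g⁻¹ * z * g)
  have e1 := closure_triple (MulAut.conj g⁻¹).toMonoidHom (g * e * g⁻¹) y z
  have hle : ∀ x ∈ Subgroup.closure {g * e * g⁻¹, y, z},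
      (MulAut.conj g⁻¹) x ∈ Subgroup.closure {e, g⁻¹ * y * g, g⁻¹ * z * g} := by
    intro x hx
    have h4 : (MulAut.conj g⁻¹).toMonoidHom x ∈ (Subgroup.closure {g * e * g⁻¹, y, z}).map
      (MulAut.conj g⁻¹).toMonoidHom := ⟨x, hx, rfl⟩
    rw [e1] at h4
    have e2 : (MulAut.conj g⁻¹).toMonoidHom (g * e * g⁻¹) = e := by
      change g⁻¹ * (g * e * g⁻¹) * g⁻¹⁻¹ = e
      group
    have e3 : (MulAut.conj g⁻¹).toMonoidHom y = g⁻¹ * y * g := by
      change g⁻¹ * y * g⁻¹⁻¹ = g⁻¹ * y * g
      rw [inv_inv]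
    have e4 : (MulAut.conj g⁻¹).toMonoidHom z = g⁻¹ * z * g := by
      change g⁻¹ * z * g⁻¹⁻¹ = g⁻¹ * z * g
      rw [inv_inv]
    rw [e2, e3, e4] at h4
    exact h4
  let φ : Subgroup.closure {g * e * g⁻¹, y, z} →*
      Subgroup.closure {e, g⁻¹ * y * g, g⁻¹ * z * g} :=
    ((MulAut.conj g⁻¹).toMonoidHom.comp (Subgroup.subtype _)).codRestrict _
      fun x => hle x.1 x.2
  have hφ : Function.Injective φ := by
    intro a b hab
    have h4 : (MulAut.conj g⁻¹) (a : G) = (MulAut.conj g⁻¹) (b : G) := congrArg Subtype.val hab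
    exact Subtype.ext ((MulAut.conj g⁻¹).injective h4)
  refine InF.of_inj hK φ hφ ?_
  have e5 : φ ⟨g * e * g⁻¹, hez⟩ = ⟨e, mem_three _ _ _⟩ := by
    apply Subtype.ext
    change g⁻¹ * (g * e * g⁻¹) * g⁻¹⁻¹ = e
    group
  rw [e5]
  exact h3

/-- the finite subgroups of a subgroup -/
theorem HK.subgroup (h : HK c n N k G) (R : Subgroup G) : HK c n N k R := by
  classical
  refine ⟨fun x => Subtype.ext (h.exp x.1), fun s hs => ?_⟩
  obtain ⟨t, ht⟩ : ∃ t : Finset G, t = s.image (fun x : R => (x : G)) := ⟨_, rfl⟩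
  have hcard : t.card ≤ k := by
    rw [ht]
    exact Finset.card_image_le.trans hs
  have e : (Subgroup.closure (s : Set R)).map R.subtype = Subgroup.closure (t : Set G) := by
    rw [MonoidHom.map_closure, ht, Finset.coe_image]
    rfl
  obtain ⟨h3, h4, h5⟩ := h.gen t hcard
  rw [← e] at h3 h4 h5
  let iso := (Subgroup.closure (s : Set R)).equivMapOfInjective R.subtype R.subtype_injective
  refine ⟨Finite.of_equiv _ iso.symm.toEquiv, ?_, h5.of_inj iso.toMonoidHom iso.injective⟩
  rw [Nat.card_congr iso.toEquiv]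
  exact h4

/-- finite subgroups of `R1Sub` are equal to their first layers -/
theorem R1Sub_L1 (hk : 6 ≤ k) (h : HK (c + 1) n N k G) (h2 : TwoGen n)
    (s : Finset (R1Sub hk h h2)) (hs : s.card ≤ k) :
    L1 c (Subgroup.closure (s : Set (R1Sub hk h h2))) := by
  classical
  intro Q _ f hf A _ hA g a
  have hK : Hy c n (Subgroup.closure (s : Set (R1Sub hk h h2))) := (h.subgroup (R1Sub hk h h2)).hy s hs
  have hall : ∀ q : Q, q ∈ EE c Q := by
    intro q
    obtain ⟨x, rfl⟩ := hf.surj q
    rw [← InF.iff hK hf]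
    -- the image in `G`
    obtain ⟨t, ht⟩ : ∃ t : Finset G, t = s.image (fun x : R1Sub hk h h2 => (x : G)) := ⟨_, rfl⟩
    have hcard : t.card ≤ k := by
      rw [ht]
      exact Finset.card_image_le.trans hs
    have e : (Subgroup.closure (s : Set (R1Sub hk h h2))).map (R1Sub hk h h2).subtype =
        Subgroup.closure (t : Set G) := by
      rw [MonoidHom.map_closure, ht, Finset.coe_image]
      rfl
    have hKt := h.hy t hcard
    have hle : ∀ z ∈ Subgroup.closure (s : Set (R1Sub hk h h2)),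
        (z : G) ∈ Subgroup.closure (t : Set G) := by
      intro z hz
      rw [← e]
      exact ⟨z, hz, rfl⟩
    let φ : Subgroup.closure (s : Set (R1Sub hk h h2)) →* Subgroup.closure (t : Set G) :=
      ((R1Sub hk h h2).subtype.comp (Subgroup.subtype _)).codRestrict _ fun x => hle x.1 x.2
    have hφ : Function.Injective φ := by
      intro a b hab
      have h4 := congrArg (fun w : Subgroup.closure (t : Set G) => (w : G)) hab
      exact Subtype.ext (Subtype.ext h4)
    refine InF.of_inj hKt φ hφ ?_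
    exact R1.inF h2 hKt (hle x.1 x.2) x.1.2
  exact hall _

/-- normal subgroups of groups without locally finite normal subgroups -/
theorem rad_sub_triv (hrad : ∀ M : Subgroup G, M.Normal → LF M → M = ⊥) (R : Subgroup G)
    [R.Normal] : ∀ M : Subgroup R, M.Normal → LF M → M = ⊥ := by
  intro M hM hML
  obtain ⟨P, hP, hPL, hPmax⟩ := exists_radical R
  have h3 : (P.map R.subtype).Normal := by
    refine ⟨?_⟩
    rintro _ ⟨x, hx, rfl⟩ g
    have hn : (P.map (MulAut.conjNormal (H := R) g).toMonoidHom).Normal :=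
      hP.map _ (MulAut.conjNormal (H := R) g).surjective
    have hl : LF (P.map (MulAut.conjNormal (H := R) g).toMonoidHom) :=
      x_LFS.1 _ _ _ ((MulAut.conjNormal (H := R) g).toMonoidHom.subgroupMap_surjective P) hPL
    have h4 := hPmax _ hn hl (Subgroup.mem_map_of_mem _ hx)
    exact ⟨_, h4, rfl⟩
  have h4 : LF (P.map R.subtype) := x_LFS.1 _ _ _ (R.subtype.subgroupMap_surjective P) hPL
  have h5 := hrad _ h3 h4
  have h6 : P = ⊥ := (Subgroup.map_eq_bot_iff_of_injective _ R.subtype_injective).1 h5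
  rw [eq_bot_iff, ← h6]
  exact hPmax M hM hML

/-- the first layer of the group is trivial -/
theorem R1_triv (hc : 0 < c) (hk : 6 ≤ k) (h2 : TwoGen n) (h : HK (c + 1) n N k G)
    (IH : ∀ (G : Type) [Group G], HK c n N k G → LF G)
    (hrad : ∀ M : Subgroup G, M.Normal → LF M → M = ⊥) {e : G} (he : e ∈ R1 c G) : e = 1 := by
  have := R1Sub_normal hk h h2
  have h3 := triv_step hc hk h2 (h.subgroup (R1Sub hk h h2)) (R1Sub_L1 hk h h2) IH
    (rad_sub_triv hrad (R1Sub hk h h2)) ⟨e, he⟩
  exact congrArg Subtype.val h3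

/-- one layer -/
theorem TL.l1 {K : Type} [Group K] (hK : Hy c n K) (h : TL c 1 K) : L1 c K := by
  obtain ⟨W, _, f, hf, hfk, hW⟩ := h
  intro Q _ q hq A _ hA g a
  have hfin := hK.fin
  have hWfin : Finite W := Finite.of_surjective f hf
  have hker : q.ker ≤ f.ker := by
    intro x hx
    have h3 : InF c x := (InF.iff hK hq x).2 (by
      have h4 : q x = 1 := hx
      rw [h4]
      exact one_mem _)
    exact (hfk x).1 h3
  let r : Q →* W := (QuotientGroup.lift q.ker f hker).comp
    (QuotientGroup.quotientKerEquivOfSurjective q hq.surj).symm.toMonoidHom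
  have hr : ∀ x, r (q x) = f x := by
    intro x
    have h3 : (QuotientGroup.quotientKerEquivOfSurjective q hq.surj).symm (q x) =
        (x : K ⧸ q.ker) := by
      rw [MulEquiv.symm_apply_eq]
      rfl
    change (QuotientGroup.lift q.ker f hker)
      ((QuotientGroup.quotientKerEquivOfSurjective q hq.surj).symm (q x)) = f x
    rw [h3]
    rfl
  obtain ⟨x, hx⟩ := hq.surj (g a)
  have h3 := hA W hWfin hW (r.comp g) a
  have h4 : f x = 1 := by
    rw [← hr, hx]
    exact h3
  rw [← hx]
  exact (InF.iff hK hq x).1 ((hfk x).2 h4)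

end Pool.Agent.TH921.Nt.X
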