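import Mathlib
import Pool.Agent.TH921.NT.NsZA

set_option autoImplicit false

/-!
# Groups of exponent `n` with nonsoluble finite subgroups, section ZB: characteristic subgroups
-/

namespace Pool.Agent.TH921.Nt.X

open Pool.Agent.H32BU Pool.Agent.TH69.Mtn Pool.Agent.TH921.Nt

variable {c n N k : ℕ} {G : Type} [Group G]

/-- every finite subset of `M` lies in a product of finitely many pairwise commuting nonabelian
simple subgroups of `M` of one and the same order -/
def LSS (M : Subgroup G) : Prop :=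
  ∃ c : ℕ, 0 < c ∧ ∀ s : Finset G, (s : Set G) ⊆ M → ∃ D : Set (Subgroup G), D.Finite ∧
    (∀ T ∈ D, T ≤ M ∧ Nat.card T = c ∧ IsSimpleGroup T ∧ ∃ a b : T, a * b ≠ b * a) ∧
    (∀ A ∈ D, ∀ B ∈ D, A ≠ B → ∀ a ∈ A, ∀ b ∈ B, a * b = b * a) ∧
    (s : Set G) ⊆ (sSup D : Subgroup G)

/-- the two types of normal subgroups -/
def TT (n : ℕ) (M : Subgroup G) : Prop :=
  (∃ p a : ℕ, p.Prime ∧ p ^ a ∣ n ∧ ∀ x ∈ M, x ^ p ^ a = 1) ∨ LSS M

/-- there is a nontrivial characteristic subgroup of one of the two types -/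
def HC (n : ℕ) (G : Type) [Group G] : Prop :=
  ∃ M : Subgroup G, M.Characteristic ∧ M ≠ ⊥ ∧ TT n M

theorem LSS.map {R : Subgroup G} {M : Subgroup R} (h : LSS M) : LSS (M.map R.subtype) := by
  classical
  obtain ⟨c, hc, h⟩ := h
  refine ⟨c, hc, fun s hs => ?_⟩
  have hR : ∀ x ∈ s, x ∈ R := by
    intro x hx
    obtain ⟨y, -, rfl⟩ := hs hx
    exact y.2
  obtain ⟨t, ht⟩ : ∃ t : Finset R, ∀ x : R, x ∈ t ↔ (x : G) ∈ s := by
    refine ⟨s.attach.image (fun x => ⟨x.1, hR x.1 x.2⟩), fun x => ?_⟩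
    rw [Finset.mem_image]
    constructor
    · rintro ⟨y, -, rfl⟩
      exact y.2
    · intro hx
      exact ⟨⟨x.1, hx⟩, Finset.mem_attach _ _, rfl⟩
  obtain ⟨D, h1, h2, h3, h4⟩ := h t (by
    intro x hx
    have hx' := (ht x).1 hx
    obtain ⟨y, hy, hyx⟩ := hs hx'
    have : y = x := Subtype.ext hyx
    rw [← this]
    exact hy)
  refine ⟨(fun T : Subgroup R => T.map R.subtype) '' D, h1.image _, ?_, ?_, ?_⟩
  · rintro _ ⟨T, hT, rfl⟩
    obtain ⟨h5, h6, h7, h8⟩ := h2 T hT
    have h9 : Bg c T := ⟨h7, h8, h6⟩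
    have e := T.equivMapOfInjective R.subtype R.subtype_injective
    have h10 := Bg.of_equiv e h9
    exact ⟨Subgroup.map_mono h5, h10.2.2, h10.1, h10.2.1⟩
  · rintro _ ⟨A, hA, rfl⟩ _ ⟨B, hB, rfl⟩ hne _ ⟨a, ha, rfl⟩ _ ⟨b, hb, rfl⟩
    have h5 := h3 A hA B hB (fun h => hne (by rw [h])) a ha b hb
    exact congrArg Subtype.val h5
  · intro x hx
    have h5 : sSup D ≤ (sSup ((fun T : Subgroup R => T.map R.subtype) '' D)).comap R.subtype := by
      refine sSup_le fun T hT => ?_
      rw [← Subgroup.map_le_iff_le_comap]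
      exact le_sSup ⟨T, hT, rfl⟩
    exact h5 (h4 ((ht ⟨x, hR x hx⟩).2 hx))

theorem HC.of_char (R : Subgroup G) (hR : R.Characteristic) (h : HC n R) : HC n G := by
  obtain ⟨M, hM, hM1, hM2⟩ := h
  refine ⟨M.map R.subtype, ?_, ?_, ?_⟩
  · rw [Subgroup.characteristic_iff_map_le]
    rintro φ _ ⟨_, ⟨x, hx, rfl⟩, rfl⟩
    have h1 : R.map φ.toMonoidHom = R := Subgroup.characteristic_iff_map_eq.1 hR φ
    let ψ : R ≃* R := (φ.subgroupMap R).trans (MulEquiv.subgroupCongr h1)
    have h2 := Subgroup.characteristic_iff_map_le.1 hM ψ (Subgroup.mem_map_of_mem _ hx)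
    exact ⟨ψ x, h2, rfl⟩
  · intro h1
    exact hM1 ((Subgroup.map_eq_bot_iff_of_injective _ R.subtype_injective).1 h1)
  · rcases hM2 with ⟨p, a, hp, ha, h1⟩ | h1
    · refine Or.inl ⟨p, a, hp, ha, ?_⟩
      rintro _ ⟨x, hx, rfl⟩
      have h2 := congrArg Subtype.val (h1 x hx)
      exact h2
    · exact Or.inr h1.map

theorem RSub_char (hk : 6 ≤ k) (h : HK (c + 1) n N k G) (h2 : TwoGen n) :
    (RSub hk h h2).Characteristic := by
  rw [Subgroup.characteristic_iff_map_le]
  rintro φ _ ⟨e, he, rfl⟩ y z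
  have h3 := (he (φ.symm y) (φ.symm z)).map φ.toMonoidHom
  rw [closure_triple] at h3
  have e1 : φ.toMonoidHom (φ.symm y) = y := φ.apply_symm_apply y
  have e2 : φ.toMonoidHom (φ.symm z) = z := φ.apply_symm_apply z
  rw [e1, e2] at h3
  exact h3

theorem R1Sub_char (hk : 6 ≤ k) (h : HK (c + 1) n N k G) (h2 : TwoGen n) :
    (R1Sub hk h h2).Characteristic := by
  rw [Subgroup.characteristic_iff_map_le]
  rintro φ _ ⟨e, he, rfl⟩ y z hez
  have h3 := he (φ.symm y) (φ.symm z) (mem_three _ _ _)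
  have hK := h.hy3 hk e (φ.symm y) (φ.symm z)
  have e1 := closure_triple φ.symm.toMonoidHom (φ.toMonoidHom e) y z
  have hle : ∀ x ∈ Subgroup.closure {φ.toMonoidHom e, y, z},
      φ.symm x ∈ Subgroup.closure {e, φ.symm y, φ.symm z} := by
    intro x hx
    have h4 : φ.symm.toMonoidHom x ∈ (Subgroup.closure {φ.toMonoidHom e, y, z}).map
      φ.symm.toMonoidHom := ⟨x, hx, rfl⟩
    rw [e1] at h4
    have e2 : φ.symm.toMonoidHom (φ.toMonoidHom e) = e := φ.symm_apply_apply e
    rw [e2] at h4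
    exact h4
  let ψ : Subgroup.closure {φ.toMonoidHom e, y, z} →*
      Subgroup.closure {e, φ.symm y, φ.symm z} :=
    (φ.symm.toMonoidHom.comp (Subgroup.subtype _)).codRestrict _ fun x => hle x.1 x.2
  have hψ : Function.Injective ψ := by
    intro a b hab
    have h4 := congrArg (fun w : Subgroup.closure {e, φ.symm y, φ.symm z} => (w : G)) hab
    exact Subtype.ext (φ.symm.injective h4)
  refine InF.of_inj hK ψ hψ ?_
  have e5 : ψ ⟨φ.toMonoidHom e, hez⟩ = ⟨e, mem_three _ _ _⟩ := by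
    apply Subtype.ext
    exact φ.symm_apply_apply e
  rw [e5]
  exact h3

theorem VV_char (c : ℕ) (G : Type) [Group G] : (sSup (VV c G) : Subgroup G).Characteristic := by
  rw [Subgroup.characteristic_iff_map_le]
  intro φ
  rw [Subgroup.map_le_iff_le_comap]
  refine sSup_le fun T hT => ?_
  rw [← Subgroup.map_le_iff_le_comap]
  exact le_sSup ⟨Bg.of_equiv (T.equivMapOfInjective _ φ.injective) hT.1,
    TG.of_equiv (T.equivMapOfInjective _ φ.injective) hT.2⟩

/-- groups with one layer -/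
theorem hc_L1 (hc : 0 < c) (hk : 6 ≤ k) (h2 : TwoGen n) (h : HK (c + 1) n N k G)
    (hL : ∀ s : Finset G, s.card ≤ k → L1 c (Subgroup.closure (s : Set G)))
    (IH : ∀ (G : Type) [Group G], HK c n N k G → (∃ g : G, g ≠ 1) → HC n G)
    (hg : ∃ g : G, g ≠ 1) : HC n G := by
  classical
  by_cases hR : ∀ e ∈ RR c G, e = 1
  · by_cases hV : ∀ T : Subgroup G, T ∉ VV c G
    · exact IH G (sm_all hc hk h2 h hL hR hV) hg
    · push Not at hV
      obtain ⟨T, hT⟩ := hV
      refine ⟨sSup (VV c G), VV_char c G, ?_, Or.inr ?_⟩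
      · intro h3
        have h4 : T ≤ ⊥ := h3 ▸ le_sSup hT
        obtain ⟨a, b, hab⟩ := hT.1.2.1
        apply hab
        have h5 : a = 1 := Subtype.ext (Subgroup.mem_bot.1 (h4 a.2))
        rw [h5, one_mul, mul_one]
      · refine ⟨c, hc, fun s hs => ?_⟩
        have h3 : ∀ s : Finset G, (s : Set G) ⊆ (sSup (VV c G) : Subgroup G) →
            ∃ S : Set (Subgroup G), S.Finite ∧ S ⊆ VV c G ∧
              (s : Set G) ⊆ (sSup S : Subgroup G) := by
          intro s
          induction s using Finset.induction_on with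
          | empty => exact fun _ => ⟨∅, Set.finite_empty, Set.empty_subset _, by simp⟩
          | insert a s _ ih =>
            intro hs
            obtain ⟨S, hS1, hS2, hS3⟩ := ih fun x hx => hs (Finset.mem_insert_of_mem hx)
            obtain ⟨D, hD1, hD2, hD3⟩ := NsI.mem_fin (VV c G) (hs (Finset.mem_insert_self a s))
            refine ⟨S ∪ D, hS1.union hD1, Set.union_subset hS2 hD2, ?_⟩
            intro x hx
            rcases Finset.mem_insert.1 hx with rfl | hx
            · exact (sSup_le_sSup Set.subset_union_right : sSup D ≤ sSup (S ∪ D)) hD3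
            · exact (sSup_le_sSup Set.subset_union_left : sSup S ≤ sSup (S ∪ D)) (hS3 hx)
        obtain ⟨S, hS1, hS2, hS3⟩ := h3 s hs
        obtain ⟨D, hD1, hD2, hD3, hD4⟩ := NsI.cover hc (VV c G) (fun T hT => hT.1)
          (two_comp hc hk h2 h hL hR) (star hc hk h2 h hL hR) hS1 hS2
        refine ⟨D, hD1, fun T hT => ⟨le_sSup (hD2 hT), (hD2 hT).1.2.2, (hD2 hT).1.1,
          (hD2 hT).1.2.1⟩,
          fun A hA B hB hne => ?_, hS3.trans hD4⟩
        rcases hD3 A hA B hB with h5 | h5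
        · exact absurd h5 hne
        · exact h5
  · push Not at hR
    obtain ⟨e, he, he1⟩ := hR
    refine HC.of_char (RSub hk h h2) (RSub_char hk h h2) (IH _ (h.sub hk h2) ⟨⟨e, he⟩, ?_⟩)
    intro h3
    exact he1 (congrArg Subtype.val h3)

/-- groups with several layers -/
theorem hc_all (hc : 0 < c) (hk : 6 ≤ k) (h2 : TwoGen n) (h : HK (c + 1) n N k G)
    {p a m : ℕ} (hp : p.Prime) (hpc : p ∣ c) (hn : n = p ^ (a + 1) * m) (hcop : Nat.Coprime p m)
    (ha : 2 * (a + 1) + 2 ≤ k)
    (IH : ∀ (G : Type) [Group G], HK c n N k G → (∃ g : G, g ≠ 1) → HC n G)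
    (hg : ∃ g : G, g ≠ 1) : HC n G := by
  by_cases hR1 : ∀ e ∈ R1 c G, e = 1
  · have hT : ∀ s : Finset G, s.card ≤ k → TL c (a + 1) (Subgroup.closure (s : Set G)) := by
      intro s hs
      refine TL_of_exp hc hp hpc hcop h2 (a + 1) _ (h.hy s hs) fun x => ?_
      rw [← hn]
      exact (h.hy s hs).exp x
    have hT1 := to_one hk h2 h hR1 a ha hT
    exact hc_L1 hc hk h2 h (fun s hs => TL.l1 (h.hy s hs) (hT1 s hs)) IH hg
  · push Not at hR1
    obtain ⟨e, he, he1⟩ := hR1
    refine HC.of_char (R1Sub hk h h2) (R1Sub_char hk h h2)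
      (hc_L1 hc hk h2 (h.subgroup (R1Sub hk h h2)) (R1Sub_L1 hk h h2) IH ⟨⟨e, he⟩, ?_⟩)
    intro h3
    exact he1 (congrArg Subtype.val h3)

/-- `Nset` and automorphisms -/
theorem Nset_char (q : ℕ) (G : Type) [Group G] :
    (Subgroup.closure (Nset q : Set G)).Characteristic := by
  rw [Subgroup.characteristic_iff_map_le]
  intro φ
  rw [Subgroup.map_le_iff_le_comap, Subgroup.closure_le]
  intro e he
  apply Subgroup.subset_closure
  refine ⟨?_, ?_⟩
  · have h1 : φ.toMonoidHom e ^ q = φ.toMonoidHom (e ^ q) := (map_pow _ _ _).symm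
    rw [h1, he.1, map_one]
  · intro y hy x hx
    have h1 : c2 (φ.toMonoidHom e) y = (c2 e (φ.symm y)).map φ.toMonoidHom := by
      rw [map_c2]
      congr 1
      exact (φ.apply_symm_apply y).symm
    rw [h1] at hx
    obtain ⟨x, hx, rfl⟩ := hx
    rw [← map_pow, he.2 (φ.symm y) (by rw [← map_pow, hy, map_one]) x hx, map_one]

/-- the soluble case -/
theorem base_hc {n : ℕ} (hn : 1 ≤ n) (G : Type) [Group G] (hG : ∀ x : G, x ^ n = 1) (N : ℕ)
    (h : ∀ a x z : G, Finite (c3 a x z) ∧ Nat.card (c3 a x z) ≤ N ∧ Sm 0 (c3 a x z))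
    (hg : ∃ g : G, g ≠ 1) : HC n G := by
  by_contra hcon
  have hNs : ∀ p : ℕ, p.Prime → ∀ e ∈ (Nset (qp p n) : Set G), e = 1 := by
    intro p hp e he
    by_contra he1
    apply hcon
    refine ⟨Subgroup.closure (Nset (qp p n) : Set G), Nset_char _ _, ?_,
      Or.inl ⟨p, n.factorization p, hp, Nat.ordProj_dvd n p, (x_NS G (qp p n)).1⟩⟩
    intro h3
    have h4 : e ∈ Subgroup.closure (Nset (qp p n) : Set G) := Subgroup.subset_closure he
    rw [h3] at h4
    exact he1 (Subgroup.mem_bot.1 h4)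
  have key : ∀ m : ℕ, (∀ a x z : G, Finite (c3 a x z) ∧ Group.IsSolvable (c3 a x z) ∧
      DD (c3 a x z) m = ⊥) → ∀ g : G, g = 1 := by
    intro m
    induction m with
    | zero =>
      intro h3 a
      have h4 : c3 a a a = ⊥ := (h3 a a a).2.2
      have h5 : a ∈ c3 a a a := Subgroup.subset_closure (by simp)
      rw [h4] at h5
      exact Subgroup.mem_bot.1 h5
    | succ m ih =>
      intro h3
      have htwo : ∀ a x : G, DD (c2 a x) m = ⊥ := by
        intro a x
        rw [eq_bot_iff]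
        intro e he
        apply mem_of_parts ⊥ n hn e
        intro p hp
        rw [Subgroup.mem_bot]
        apply hNs p hp
        have hpe : (e ^ (n / qp p n)) ^ qp p n = 1 := by
          rw [← pow_mul, show n / qp p n * qp p n = n from Nat.div_mul_cancel (Nat.ordProj_dvd n p),
            hG]
        refine ⟨hpe, ?_⟩
        intro y hy
        obtain ⟨hf, hs, hd⟩ := h3 a x y
        have hle : c2 a x ≤ c3 a x y := by
          unfold c2 c3
          apply Subgroup.closure_mono
          intro t ht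
          simp only [Set.mem_insert_iff, Set.mem_singleton_iff] at ht ⊢
          tauto
        have hyin : y ∈ c3 a x y := Subgroup.subset_closure (by simp)
        exact x_COPC G (c3 a x y) hf n hn (fun t _ => hG t) m hd p hp _
          (Subgroup.pow_mem _ ((x_MON G).1 _ _ hle m he) _) hpe y hyin hy
      refine ih fun a x z => ⟨(h3 a x z).1, (h3 a x z).2.1, ?_⟩
      have hf := (h3 a x z).1
      have hs := (h3 a x z).2.1
      have h7 : DD (⊤ : Subgroup (c3 a x z)) m = ⊥ := by
        apply x_TWO (c3 a x z) hf hs m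
        intro b y
        have h8 := x_MAPI (c3 a x z) G (c3 a x z).subtype (c3 a x z).subtype_injective (c2 b y) m
        rw [map_c2, htwo] at h8
        exact (Subgroup.map_eq_bot_iff_of_injective _ (c3 a x z).subtype_injective).1 h8
      have h11 := x_MAPI (c3 a x z) G (c3 a x z).subtype (c3 a x z).subtype_injective ⊤ m
      rw [h7, Subgroup.map_bot, ← MonoidHom.range_eq_map, Subgroup.range_subtype] at h11
      exact h11.symm
  obtain ⟨g, hg1⟩ := hg
  apply hg1
  refine key N (fun a x z => ?_) g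
  obtain ⟨h1, h3, h4⟩ := h a x z
  have hs := NsJ.solv _ (c3 a x z) rfl h4
  refine ⟨h1, hs, ?_⟩
  have e := x_MAPI (c3 a x z) G (c3 a x z).subtype (c3 a x z).subtype_injective ⊤ N
  rw [NsJ.DD_bot x_MON x_SOLH (c3 a x z) hs N h3, Subgroup.map_bot, ← MonoidHom.range_eq_map,
    Subgroup.range_subtype] at e
  exact e.symm

/-- characteristic subgroups of one of the two types, by induction on the largest order of a simple
section -/
theorem hc_HK {n N k v : ℕ} (hn : 1 ≤ n) (hk : 6 ≤ k) (hkv : 2 * v + 2 ≤ k)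
    (hsq : ∃ p q : ℕ, ∀ r : ℕ, r.Prime → r ^ (v + 1) ∣ n → r = p ∨ r = q) (h2 : TwoGen n) :
    ∀ (c : ℕ) (G : Type) [Group G], HK c n N k G → (∃ g : G, g ≠ 1) → HC n G := by
  classical
  intro c
  induction c with
  | zero =>
    intro G _ h hg
    refine base_hc hn G h.exp N (fun a x z => ?_) hg
    have h1 := h.gen {a, x, z} (Finset.card_le_three.trans (by omega))
    have e : (({a, x, z} : Finset G) : Set G) = {a, x, z} := by simp
    rw [e] at h1
    exact h1
  | succ c ih =>
    intro G _ h hg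
    by_cases hT : 0 < c ∧ ∃ (T : Type) (_ : Group T), Bg c T ∧ Finite T ∧ ∀ x : T, x ^ n = 1
    · obtain ⟨hc, T, _, hT1, hT2, hT3⟩ := hT
      obtain ⟨p, hp, hpc, hpn, hpv⟩ := prime_of hsq hT1 hT3
      obtain ⟨b, hb⟩ : ∃ b : ℕ, n.factorization p = b + 1 := by
        have h3 : 0 < n.factorization p := hp.factorization_pos_of_dvd (by omega) hpn
        exact ⟨n.factorization p - 1, by omega⟩
      have hbv : b + 1 ≤ v := by
        by_contra hcon
        apply hpv
        rw [hp.pow_dvd_iff_le_factorization (by omega)]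
        omega
      have hnm : n = p ^ (b + 1) * (n / p ^ n.factorization p) := by
        rw [← hb]
        exact (Nat.ordProj_mul_ordCompl_eq_self n p).symm
      have hcop : Nat.Coprime p (n / p ^ n.factorization p) := Nat.coprime_ordCompl hp (by omega)
      exact hc_all hc hk h2 h hp hpc hnm hcop (by omega) ih hg
    · refine ih G ⟨h.exp, fun s hs => ⟨(h.gen s hs).1, (h.gen s hs).2.1, ?_⟩⟩ hg
      intro S _ hS1 hS2 X f hf
      obtain ⟨h3, htg⟩ := (h.gen s hs).2.2 S hS1 hS2 X f hf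
      refine ⟨?_, htg⟩
      by_contra hcon
      have h4 : Nat.card S = c := by omega
      have hfin := (h.gen s hs).1
      have hSfin : Finite S := Finite.of_surjective f hf
      have hpos : 0 < Nat.card S := Nat.card_pos
      refine hT ⟨by omega, S, inferInstance, ⟨hS1, hS2, h4⟩, hSfin, fun x => ?_⟩
      obtain ⟨y, rfl⟩ := hf x
      rw [← map_pow]
      have : y ^ n = 1 := Subtype.ext (Subtype.ext (h.exp _))
      rw [this, map_one]

end Pool.Agent.TH921.Nt.X
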